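import Pool.Agent.Run7.h755.MG.Form

/-! # No tame expansion defines a set between `u ^ ℤ` and its closure (helper755) -/

set_option autoImplicit false

namespace Pool.Agent.Run7.h755.MG

open Function
open Pool.Agent.Y924.EL Pool.Agent.Y924.UF
open Pool.Agent.Results.MP_db9079_lc.UniformFiniteness

variable {p : ℕ} [hp : Fact p.Prime]

theorem order_zpow' {u : LaurentSeries (ZMod p)} (hu : u ≠ 0) (n : ℤ) :
    (u ^ n).order = n * u.order := by
  obtain ⟨m, rfl | rfl⟩ := n.eq_nat_or_neg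
  · rw [zpow_natCast, HahnSeries.order_pow, nsmul_eq_mul]
  · have h1 : u ^ (-(m : ℤ)) * u ^ m = 1 := by
      rw [← zpow_natCast u m, ← zpow_add₀ hu, neg_add_cancel, zpow_zero]
    have h2 := HahnSeries.order_mul (zpow_ne_zero (-(m : ℤ)) hu) (pow_ne_zero m hu)
    rw [h1, HahnSeries.order_one, HahnSeries.order_pow, nsmul_eq_mul] at h2
    linarith

/-- the case of a unit -/
theorem not_tame_unit (Q : Set (LaurentSeries (ZMod p))) (ψ : Fm) (w : ℕ → LaurentSeries (ZMod p))
    (u : LaurentSeries (ZMod p)) (hu0 : u ≠ 0) (hu : ∀ n : ℕ, 0 < n → u ^ n ≠ 1)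
    (ho : u.order = 0)
    (h1 : ∀ n : ℤ, u ^ n ∈ Dfn p Q ψ w)
    (h2 : ∀ x ∈ Dfn p Q ψ w, ∀ k : ℤ, ∃ n : ℤ, V k (x - u ^ n)) : ¬ Tame p Q := by
  intro hT
  have hp1 : 0 < p - 1 := Nat.sub_pos_of_lt hp.out.one_lt
  have hVu : V 0 u := by
    have := V_order u
    rwa [ho] at this
  have hc0 : u.coeff 0 ≠ 0 := by
    have := coeff_order_ne hu0
    rwa [ho] at this
  -- the `(p - 1)`-st power is a one-unit
  have hV1 : V 1 (u ^ (p - 1) - 1) := by
    have e1 : V 1 (u - HahnSeries.C (u.coeff 0)) := by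
      intro i hi
      rw [HahnSeries.coeff_sub, HahnSeries.C_apply]
      rcases (show i < 0 ∨ i = 0 by omega) with h | rfl
      · rw [hVu i h, HahnSeries.coeff_single_of_ne h.ne, sub_zero]
      · rw [HahnSeries.coeff_single_same, sub_self]
    have e2 : V 0 (HahnSeries.C (u.coeff 0) : LaurentSeries (ZMod p)) := by
      intro i hi
      rw [HahnSeries.C_apply, HahnSeries.coeff_single_of_ne hi.ne]
    have e3 := V_pow_sub e1 hVu e2 (p - 1)
    rwa [← map_pow, ZMod.pow_card_sub_one_eq_one hc0, map_one] at e3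
  obtain ⟨s, hsd⟩ : ∃ s, s = u ^ (p - 1) - 1 := ⟨_, rfl⟩
  have hus : u ^ (p - 1) = 1 + s := by rw [hsd]; ring
  have hs : s ≠ 0 := by
    rw [hsd]
    exact sub_ne_zero.2 (hu _ hp1)
  have he : 0 < s.order := by
    by_contra hc
    have e1 : V 1 s := hsd ▸ hV1
    exact coeff_order_ne hs (e1 _ (by omega))
  obtain ⟨S, hS⟩ : ∃ S, S = Dfn p Q ψ w := ⟨_, rfl⟩
  obtain ⟨P', hP'⟩ : ∃ P' : Set (LaurentSeries (ZMod p)),
      P' = {x | ∃ g, g ∈ Dfn p Q ψ w ∧ g ^ (p - 1) = x} := ⟨_, rfl⟩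
  have hup : ∀ n : ℤ, (u ^ n) ^ (p - 1) = (1 + s) ^ n := by
    intro n
    rw [← hus, ← zpow_natCast, ← zpow_mul, ← zpow_natCast, ← zpow_mul, mul_comm]
  have a1 : ∀ i : ℕ, (1 + s) ^ p ^ i ∈ P' := by
    intro i
    rw [hP']
    refine ⟨u ^ ((p ^ i : ℕ) : ℤ), h1 _, ?_⟩
    rw [hup, zpow_natCast]
  have a0 : (1 : LaurentSeries (ZMod p)) ∈ P' := by
    rw [hP']
    refine ⟨u ^ (0 : ℤ), h1 _, ?_⟩
    rw [zpow_zero, one_pow]
  have a2 : ∀ x ∈ P', ∀ k : ℤ, ∃ n : ℤ, V k (x - (1 + s) ^ n) := by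
    intro x hx k
    rw [hP'] at hx
    obtain ⟨g, hg, rfl⟩ := hx
    obtain ⟨n, hn⟩ := h2 g hg (max k 0)
    refine ⟨n, ?_⟩
    have hVz : V 0 (u ^ n) := by
      have := V_order (u ^ n)
      rwa [order_zpow' hu0, ho, mul_zero] at this
    have hVg : V 0 g := by
      have e3 : g = (g - u ^ n) + u ^ n := by ring
      rw [e3]
      exact V_add (hn.mono (le_max_right _ _)) hVz
    have e4 := V_pow_sub hn hVg hVz (p - 1)
    rw [hup] at e4
    exact e4.mono (le_max_left _ _)
  obtain ⟨v, hv⟩ : ∃ v : ℕ → LaurentSeries (ZMod p), v = fun i =>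
      if i = 64 then HahnSeries.single (1 : ℤ) (1 : ZMod p) else
        if i = 65 then 1 + s else w (i - 100) := ⟨_, rfl⟩
  have hDf : Dfn p Q (MF p (p - 1) ψ) v = FP (1 + s) := by
    have hsh : ∀ a g : LaurentSeries (ZMod p),
        update (fun i => update v 0 a (i + 100)) 0 g = update w 0 g := by
      intro a g
      funext i
      by_cases hi : i = 0
      · subst hi
        rw [update_self, update_self]
      · rw [update_of_ne hi, update_of_ne hi, update_of_ne (by omega), hv]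
        simp only
        rw [if_neg (by omega), if_neg (by omega), Nat.add_sub_cancel]
    ext x
    change Sat Q (MF p (p - 1) ψ) (update v 0 x) ↔ _
    rw [sat_MF Q (p - 1) ψ _ (by rw [update_of_ne (by norm_num), hv]; rfl)]
    rw [update_self, update_of_ne (show 65 ≠ 0 by norm_num)]
    have hv65 : v 65 = 1 + s := by rw [hv]; rfl
    simp only [hv65, hsh]
    have hset : {x | ∃ g, Sat Q ψ (update w 0 g) ∧ g ^ (p - 1) = x} = P' := by
      rw [hP']
      rfl
    rw [hset]
    exact ⟨fun h => DD_sub hs he a2 h, fun h => sub_DD he a1 a0 h⟩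
  have hfin := hT.2 (MF p (p - 1) ψ) v (by rw [hDf]; exact FP_scattered hs he)
  rw [hDf] at hfin
  exact FP_infinite hs he hfin

/-- the case of an element which is not a unit -/
theorem not_tame_nonunit (Q : Set (LaurentSeries (ZMod p))) (ψ : Fm)
    (w : ℕ → LaurentSeries (ZMod p)) (u : LaurentSeries (ZMod p)) (hu0 : u ≠ 0)
    (ho : u.order ≠ 0)
    (h1 : ∀ n : ℤ, u ^ n ∈ Dfn p Q ψ w)
    (h2 : ∀ x ∈ Dfn p Q ψ w, ∀ k : ℤ, ∃ n : ℤ, V k (x - u ^ n)) : ¬ Tame p Q := by
  intro hT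
  have hcl : ∀ x ∈ Dfn p Q ψ w, x = 0 ∨ ∃ n : ℤ, x = u ^ n := by
    intro x hx
    by_cases hx0 : x = 0
    · exact Or.inl hx0
    right
    have A : ∀ k : ℤ, x.order < k → ∃ n : ℤ, n * u.order = x.order ∧ V k (x - u ^ n) := by
      intro k hk
      obtain ⟨n, hn⟩ := h2 x hx k
      refine ⟨n, ?_, hn⟩
      rw [← order_zpow' hu0]
      have e4 : ∀ i < k, (u ^ n).coeff i = x.coeff i := by
        intro i hi
        have e6 := hn i hi
        rw [HahnSeries.coeff_sub, sub_eq_zero] at e6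
        exact e6.symm
      apply le_antisymm
      · by_contra hc
        apply coeff_order_ne hx0
        rw [← e4 _ hk]
        exact V_order _ _ (not_le.1 hc)
      · by_contra hc
        have hc' := not_le.1 hc
        apply coeff_order_ne (zpow_ne_zero n hu0)
        rw [e4 _ (by omega)]
        exact V_order _ _ hc'
    obtain ⟨n, hn, -⟩ := A (x.order + 1) (by omega)
    refine ⟨n, ?_⟩
    by_contra hne
    have hd : x - u ^ n ≠ 0 := sub_ne_zero.2 hne
    obtain ⟨m, hm, hV⟩ := A (max (x.order + 1) ((x - u ^ n).order + 1))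
      (lt_of_lt_of_le (by omega) (le_max_left _ _))
    have hmn : m = n := mul_right_cancel₀ ho (hm.trans hn.symm)
    subst hmn
    exact coeff_order_ne hd (hV _ (lt_of_lt_of_le (by omega) (le_max_right _ _)))
  have hinj : ∀ m n : ℤ, (u ^ m).order = (u ^ n).order → m = n := by
    intro m n h
    rw [order_zpow' hu0, order_zpow' hu0] at h
    exact mul_right_cancel₀ ho h
  have hsc : Scattered p (Dfn p Q ψ w) := by
    intro T hTS hne
    by_cases hi : ∃ n : ℤ, u ^ n ∈ T
    · obtain ⟨n, hn⟩ := hi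
      have hun := zpow_ne_zero n hu0
      refine ⟨_, hn, HahnSeries.single ((u ^ n).order + 1) (1 : ZMod p), ?_, ?_⟩
      · intro h
        exact one_ne_zero (HahnSeries.single_eq_zero_iff.1 h)
      · rintro y hy ⟨z, hz, hzy⟩
        have hag := (Pool.Agent.Y697.UF.ball_single ((u ^ n).order + 1)
          (u ^ n) y).1 ⟨z, hz, by rw [← hzy]; ring⟩
        have h3 := hag (u ^ n).order (by omega)
        rcases hcl y (hTS hy) with rfl | ⟨m, rfl⟩
        · exact absurd h3 (coeff_order_ne hun)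
        · have hle : (u ^ m).order ≤ (u ^ n).order := by
            by_contra hc
            apply coeff_order_ne hun
            rw [h3]
            exact V_order _ _ (not_le.1 hc)
          have hge : (u ^ n).order ≤ (u ^ m).order := by
            by_contra hc
            have hc' := not_le.1 hc
            apply coeff_order_ne (zpow_ne_zero m hu0)
            rw [← hag _ (by omega)]
            exact V_order _ _ hc'
          rw [hinj m n (le_antisymm hle hge)]
    · obtain ⟨x, hx⟩ := hne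
      have h3 : ∀ y ∈ T, y = 0 := by
        intro y hy
        rcases hcl y (hTS hy) with h | ⟨i, h⟩
        · exact h
        · exact absurd ⟨i, h ▸ hy⟩ hi
      refine ⟨x, hx, 1, one_ne_zero, fun y hy _ => ?_⟩
      rw [h3 y hy, h3 x hx]
  refine Set.infinite_of_injective_forall_mem (f := fun n : ℤ => u ^ n) ?_ h1 (hT.2 ψ w hsc)
  intro m n h
  exact hinj m n (congrArg HahnSeries.order h)

theorem not_tame (Q : Set (LaurentSeries (ZMod p))) (ψ : Fm) (w : ℕ → LaurentSeries (ZMod p))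
    (u : LaurentSeries (ZMod p)) (hu0 : u ≠ 0) (hu : ∀ n : ℕ, 0 < n → u ^ n ≠ 1)
    (h1 : ∀ n : ℤ, u ^ n ∈ Dfn p Q ψ w)
    (h2 : ∀ x ∈ Dfn p Q ψ w, ∀ k : ℤ, ∃ n : ℤ, V k (x - u ^ n)) : ¬ Tame p Q := by
  by_cases ho : u.order = 0
  · exact not_tame_unit Q ψ w u hu0 hu ho h1 h2
  · exact not_tame_nonunit Q ψ w u hu0 ho h1 h2

/-- from the closure in the topology of `F_p((t))` -/
theorem V_of_cl (S : Set (LaurentSeries (ZMod p))) (x : LaurentSeries (ZMod p))
    (h : ∀ b : LaurentSeries (ZMod p), b ≠ 0 → ∃ a ∈ S, ∃ z ∈ ValRing p, a + b * z = x) (k : ℤ) :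
    ∃ a ∈ S, V k (x - a) := by
  obtain ⟨a, ha, z, hz, hx⟩ := h (HahnSeries.single k (1 : ZMod p))
    (fun h => one_ne_zero (HahnSeries.single_eq_zero_iff.1 h))
  refine ⟨a, ha, fun i hi => ?_⟩
  have hag := (Pool.Agent.Y697.UF.ball_single k a x).1 ⟨z, hz, by rw [← hx]; ring⟩
  rw [HahnSeries.coeff_sub, hag i hi, sub_self]

end Pool.Agent.Run7.h755.MG
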