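import Pool.Agent.Run7.h755.MG.Set

/-! # The formula which defines the powers `u ^ (p ^ i)` (helper755) -/

set_option autoImplicit false

namespace Pool.Agent.Run7.h755.MG

open Function
open Pool.Agent.Y924.EL Pool.Agent.Y924.UF
open Pool.Agent.Results.MP_db9079_lc.UniformFiniteness

variable {p : ℕ} [hp : Fact p.Prime]

/-- `(x_i x_j)_0 = 0` -/
def ZF (p i j : ℕ) : Fm := .ex 20 (.and (.mul i j 20) (HF p))

theorem sat_ZF (O : Set (LaurentSeries (ZMod p))) {i j : ℕ} (hi : i ≠ 20) (hj : j ≠ 20)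
    (v : ℕ → LaurentSeries (ZMod p)) (hv : v 64 = HahnSeries.single (1 : ℤ) (1 : ZMod p)) :
    Sat O (ZF p i j) v ↔ (v i * v j).coeff 0 = 0 := by
  simp only [ZF, Sat, Pool.Agent.Y383.UF.sat_HF, update_self, update_of_ne hi, update_of_ne hj]
  constructor
  · rintro ⟨a, rfl, h⟩
    rw [update_of_ne (by norm_num), hv] at h
    exact (Pool.Agent.Y15.UF.t_RES p _).1 h
  · intro h
    refine ⟨_, rfl, ?_⟩
    rw [update_of_ne (by norm_num), hv]
    exact (Pool.Agent.Y15.UF.t_RES p _).2 h

/-- `x_a` is in the set defined by `ψ`; the parameters of `ψ` are `x_101, x_102, ...` -/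
def SF (ψ : Fm) (a : ℕ) : Fm := .ex 100 (.and (.eq 100 a) (ren (· + 100) ψ))

theorem sat_SF (O : Set (LaurentSeries (ZMod p))) (ψ : Fm) {a : ℕ} (ha : a ≠ 100)
    (v : ℕ → LaurentSeries (ZMod p)) :
    Sat O (SF ψ a) v ↔ Sat O ψ (update (fun i => v (i + 100)) 0 (v a)) := by
  have hinj : Injective (fun i : ℕ => i + 100) := fun i j h => by
    have : i + 100 = j + 100 := h
    omega
  have hc : ∀ c : LaurentSeries (ZMod p), (update v 100 c) ∘ (fun i : ℕ => i + 100) =
      update (fun i => v (i + 100)) 0 c := by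
    intro c
    exact Function.update_comp_eq_of_injective v hinj 0 c
  simp only [SF, Sat, update_self, update_of_ne ha,
    Pool.Agent.Y514.UF.sat_ren _ O (fun i : ℕ => i + 100) hinj, hc]
  constructor
  · rintro ⟨c, rfl, h⟩
    exact h
  · intro h
    exact ⟨_, rfl, h⟩

/-- `x_a` is the `q`-th power of an element of the set -/
def PF (q : ℕ) (ψ : Fm) (a : ℕ) : Fm := .ex 90 (.and (SF ψ 90) (powC q 90 a))

theorem upd_shift {k : ℕ} (hk : k < 100) (v : ℕ → LaurentSeries (ZMod p))
    (a : LaurentSeries (ZMod p)) : (fun i => update v k a (i + 100)) = fun i => v (i + 100) := by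
  funext i
  exact update_of_ne (by omega) _ _

theorem sat_PF (O : Set (LaurentSeries (ZMod p))) (q : ℕ) (ψ : Fm) {a : ℕ} (ha : 10 ≤ a)
    (ha' : a ≠ 90) (v : ℕ → LaurentSeries (ZMod p)) :
    Sat O (PF q ψ a) v ↔ ∃ g, Sat O ψ (update (fun i => v (i + 100)) 0 g) ∧ g ^ q = v a := by
  simp only [PF, Sat, sat_SF O ψ (show 90 ≠ 100 by norm_num),
    Pool.Agent.Y383.UF.sat_powC O (show 10 ≤ 90 by norm_num) ha, update_self, update_of_ne ha',
    upd_shift (show 90 < 100 by norm_num)]

/-- the formula -/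
def MF (p q : ℕ) (ψ : Fm) : Fm :=
  .ex 73 (.and (.eq 73 0) (.and (PF q ψ 73) (.neg (.ex 70 (.and (ZF p 65 70)
    (.and (.neg (.ex 71 (.and (PF q ψ 71) (.and (ZF p 71 70)
      (.ex 72 (.and (powC p 71 72) (.neg (ZF p 72 70))))))))
      (.neg (ZF p 73 70))))))))

theorem sat_MF (O : Set (LaurentSeries (ZMod p))) (q : ℕ) (ψ : Fm)
    (v : ℕ → LaurentSeries (ZMod p)) (hv : v 64 = HahnSeries.single (1 : ℤ) (1 : ZMod p)) :
    Sat O (MF p q ψ) v ↔ v 0 ∈ DD (v 65)
      {x | ∃ g, Sat O ψ (update (fun i => v (i + 100)) 0 g) ∧ g ^ q = x} := by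
  have u1 : ∀ x y : LaurentSeries (ZMod p), update (update v 73 x) 70 y 64 =
      HahnSeries.single (1 : ℤ) (1 : ZMod p) := by
    intro x y
    rw [update_of_ne (by norm_num), update_of_ne (by norm_num), hv]
  have u2 : ∀ x y h : LaurentSeries (ZMod p), update (update (update v 73 x) 70 y) 71 h 64 =
      HahnSeries.single (1 : ℤ) (1 : ZMod p) := by
    intro x y h
    rw [update_of_ne (by norm_num), u1]
  have u3 : ∀ x y h k : LaurentSeries (ZMod p),
      update (update (update (update v 73 x) 70 y) 71 h) 72 k 64 =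
      HahnSeries.single (1 : ℤ) (1 : ZMod p) := by
    intro x y h k
    rw [update_of_ne (by norm_num), u2]
  have s1 : ∀ x y : LaurentSeries (ZMod p), Sat O (ZF p 65 70) (update (update v 73 x) 70 y) ↔
      (v 65 * y).coeff 0 = 0 := by
    intro x y
    rw [sat_ZF O (by norm_num) (by norm_num) _ (u1 x y), update_self,
      update_of_ne (show 65 ≠ 70 by norm_num), update_of_ne (show 65 ≠ 73 by norm_num)]
  have s2 : ∀ x y : LaurentSeries (ZMod p), Sat O (ZF p 73 70) (update (update v 73 x) 70 y) ↔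
      (x * y).coeff 0 = 0 := by
    intro x y
    rw [sat_ZF O (by norm_num) (by norm_num) _ (u1 x y), update_self,
      update_of_ne (show 73 ≠ 70 by norm_num), update_self]
  have s3 : ∀ x y h : LaurentSeries (ZMod p),
      Sat O (ZF p 71 70) (update (update (update v 73 x) 70 y) 71 h) ↔
      (h * y).coeff 0 = 0 := by
    intro x y h
    rw [sat_ZF O (by norm_num) (by norm_num) _ (u2 x y h), update_self,
      update_of_ne (show 70 ≠ 71 by norm_num), update_self]
  have s4 : ∀ x y h k : LaurentSeries (ZMod p),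
      Sat O (ZF p 72 70) (update (update (update (update v 73 x) 70 y) 71 h) 72 k) ↔
      (k * y).coeff 0 = 0 := by
    intro x y h k
    rw [sat_ZF O (by norm_num) (by norm_num) _ (u3 x y h k), update_self,
      update_of_ne (show 70 ≠ 72 by norm_num), update_of_ne (show 70 ≠ 71 by norm_num),
      update_self]
  have s5 : ∀ x : LaurentSeries (ZMod p), Sat O (PF q ψ 73) (update v 73 x) ↔
      ∃ g, Sat O ψ (update (fun i => v (i + 100)) 0 g) ∧ g ^ q = x := by
    intro x
    rw [sat_PF O q ψ (by norm_num) (by norm_num), upd_shift (by norm_num), update_self]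
  have s6 : ∀ x y h : LaurentSeries (ZMod p),
      Sat O (PF q ψ 71) (update (update (update v 73 x) 70 y) 71 h) ↔
      ∃ g, Sat O ψ (update (fun i => v (i + 100)) 0 g) ∧ g ^ q = h := by
    intro x y h
    rw [sat_PF O q ψ (by norm_num) (by norm_num), upd_shift (by norm_num),
      upd_shift (by norm_num), upd_shift (by norm_num), update_self]
  have s7 : ∀ x y h k : LaurentSeries (ZMod p),
      Sat O (powC p 71 72) (update (update (update (update v 73 x) 70 y) 71 h) 72 k) ↔
      h ^ p = k := by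
    intro x y h k
    rw [Pool.Agent.Y383.UF.sat_powC O (by norm_num) (by norm_num), update_self,
      update_of_ne (show 71 ≠ 72 by norm_num), update_self]
  have s8 : ∀ x : LaurentSeries (ZMod p), Sat O (.eq 73 0) (update v 73 x) ↔ x = v 0 := by
    intro x
    change update v 73 x 73 = update v 73 x 0 ↔ _
    rw [update_self, update_of_ne (by norm_num)]
  simp only [MF]
  simp only [Sat.eq_8, Sat.eq_7, Sat.eq_6, s1, s2, s3, s4, s5, s6, s7, s8]
  constructor
  · rintro ⟨x, rfl, h1, h2⟩
    refine ⟨h1, fun y hy hP => ?_⟩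
    by_contra hc
    refine h2 ⟨y, hy, ?_, hc⟩
    rintro ⟨h, hh, h0, k, rfl, hk⟩
    exact hk (hP h hh h0)
  · rintro ⟨h1, h2⟩
    refine ⟨v 0, rfl, h1, ?_⟩
    rintro ⟨y, hy, hn, hc⟩
    refine hc (h2 y hy fun h hh h0 => ?_)
    by_contra hk
    exact hn ⟨h, hh, h0, _, rfl, hk⟩

end Pool.Agent.Run7.h755.MG
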