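import Pool.Agent.Run7.h755.MG.Form

/-! # Additive groups generated by the powers `s ^ (p ^ i)` (helper755) -/

set_option autoImplicit false

namespace Pool.Agent.Run7.h755.MG

open Function
open Pool.Agent.Results.MP_db9079_lc.UniformFiniteness

variable {p : ℕ} [hp : Fact p.Prime]

/-- the additive group generated by the `s ^ (p ^ i)` -/
def MM (s : LaurentSeries (ZMod p)) : AddSubgroup (LaurentSeries (ZMod p)) :=
  AddSubgroup.closure (Set.range fun i : ℕ => s ^ p ^ i)

theorem gen_mem (s : LaurentSeries (ZMod p)) (i : ℕ) : s ^ p ^ i ∈ MM s :=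
  AddSubgroup.subset_closure ⟨i, rfl⟩

/-- two additive maps which agree on the generators agree on `MM s` -/
theorem ext_MM {s : LaurentSeries (ZMod p)} {f g : LaurentSeries (ZMod p) → ZMod p}
    (hf : ∀ x y, f (x + y) = f x + f y) (hg : ∀ x y, g (x + y) = g x + g y)
    (h : ∀ i : ℕ, f (s ^ p ^ i) = g (s ^ p ^ i)) {a : LaurentSeries (ZMod p)} (ha : a ∈ MM s) :
    f a = g a := by
  have hf0 : f 0 = 0 := by
    have := hf 0 0
    rw [add_zero] at this
    exact left_eq_add.1 this
  have hg0 : g 0 = 0 := by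
    have := hg 0 0
    rw [add_zero] at this
    exact left_eq_add.1 this
  induction ha using AddSubgroup.closure_induction with
  | mem x hx =>
    obtain ⟨i, rfl⟩ := hx
    exact h i
  | zero => rw [hf0, hg0]
  | add x y _ _ h1 h2 => rw [hf, hg, h1, h2]
  | neg x _ h1 =>
    have e1 := hf x (-x)
    have e2 := hg x (-x)
    rw [add_neg_cancel, hf0] at e1
    rw [add_neg_cancel, hg0] at e2
    rw [h1] at e1
    exact add_left_cancel (e1.symm.trans e2)

theorem MM_V {s : LaurentSeries (ZMod p)} (hs : V 0 s) {a : LaurentSeries (ZMod p)}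
    (ha : a ∈ MM s) : V 0 a := by
  induction ha using AddSubgroup.closure_induction with
  | mem x hx =>
    obtain ⟨i, rfl⟩ := hx
    exact V_pow hs _
  | zero => exact V_zero 0
  | add x y _ _ h1 h2 => exact V_add h1 h2
  | neg x _ h1 => exact V_neg h1

theorem pow_sum_eq {a b c : ℕ} (h : p ^ a + p ^ b = 2 * p ^ c) : a = b ∧ a = c := by
  have hp1 := hp.out.one_lt
  have key : ∀ a b : ℕ, a < b → p ^ a + p ^ b = 2 * p ^ c → False := by
    intro a b hab h
    have h1 : p ^ a < p ^ b := Nat.pow_lt_pow_right hp1 hab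
    have h2 : p ^ a < p ^ c := by omega
    have h3 : p ^ c < p ^ b := by omega
    have h4 : a < c := (Nat.pow_lt_pow_iff_right hp1).1 h2
    have h5 : p ^ (a + 1) ∣ p ^ c := pow_dvd_pow p h4
    have h6 : p ^ (a + 1) ∣ p ^ b := pow_dvd_pow p hab
    have h7 : p ^ (a + 1) ∣ p ^ a := by
      have : p ^ (a + 1) ∣ p ^ a + p ^ b := by
        rw [h]
        exact h5.mul_left 2
      exact (Nat.dvd_add_left h6).1 this
    have h8 := Nat.le_of_dvd (pow_pos (by omega) a) h7
    have h9 : p ^ a < p ^ (a + 1) := Nat.pow_lt_pow_right hp1 (Nat.lt_succ_self a)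
    omega
  have hab : a = b := by
    rcases lt_trichotomy a b with h1 | h1 | h1
    · exact (key a b h1 h).elim
    · exact h1
    · exact (key b a h1 (by omega)).elim
  refine ⟨hab, ?_⟩
  subst hab
  have : p ^ a = p ^ c := by omega
  exact Nat.pow_right_injective hp.out.two_le this

/-- all coefficient functionals of the powers of `s` -/
theorem dualAll {s : LaurentSeries (ZMod p)} (hs : s ≠ 0) (he : 0 < s.order) (M : ℕ)
    (c : ℕ → ZMod p) (hc : ∀ k, M ≤ k → c k = 0) :
    ∃ y, V (-(s.order * M) + 1) y ∧ ∀ k : ℕ, (s ^ k * y).coeff 0 = c k := by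
  obtain ⟨y, h1, h2⟩ := dualS hs he M c
  refine ⟨y, h1, fun k => ?_⟩
  by_cases hk : k < M
  · exact h2 k hk
  · rw [hc k (by omega)]
    have h3 : V (s.order * k) (s ^ k) := by
      have := V_order (s ^ k)
      rwa [HahnSeries.order_pow, nsmul_eq_mul, mul_comm] at this
    refine coeff_zero_of_V h3 h1 ?_
    have h4 : (M : ℤ) ≤ k := by exact_mod_cast (by omega : M ≤ k)
    nlinarith

theorem pow_p_add (x y : LaurentSeries (ZMod p)) : (x + y) ^ p = x ^ p + y ^ p := by
  have := Pool.Agent.Y15.UF.inst_char (p := p)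
  exact add_pow_char _ _ _

/-- the functionals found by the formula -/
def LL (s : LaurentSeries (ZMod p)) (P : Set (LaurentSeries (ZMod p))) :
    Set (LaurentSeries (ZMod p)) :=
  {y' | ∃ y : LaurentSeries (ZMod p), (s * s * y).coeff 0 ≠ 0 ∧
    (∀ w ∈ P, (s * w ^ p * y).coeff 0 = 0) ∧
    ∀ z ∈ P, (z * y').coeff 0 = 0 → ∀ w ∈ P, (((z * w) ^ p - z * w) * y).coeff 0 = 0}

/-- the set defined by the formula -/
def AA (s : LaurentSeries (ZMod p)) (P : Set (LaurentSeries (ZMod p))) :
    Set (LaurentSeries (ZMod p)) :=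
  {x | x ∈ P ∧ ∀ y' ∈ LL s P, ∀ y'' ∈ LL s P, (x * y').coeff 0 ≠ 0 → (x * y'').coeff 0 ≠ 0 →
    ∀ w ∈ P, (w * y').coeff 0 = 0 → (w * y'').coeff 0 = 0}

section

variable {s : LaurentSeries (ZMod p)} (hs : s ≠ 0) (he : 0 < s.order)
  {P : Set (LaurentSeries (ZMod p))} (h1 : ∀ a ∈ MM s, a ∈ P)
  (h2 : ∀ x ∈ P, ∀ k : ℤ, ∃ a ∈ MM s, V k (x - a))

include he in
theorem big (k : ℤ) : ∃ n : ℕ, ∀ j : ℕ, n ≤ j → k < s.order * (p : ℤ) ^ j := by
  refine ⟨k.toNat, fun j hj => ?_⟩
  have e1 : j < p ^ j := Nat.lt_pow_self hp.out.one_lt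
  have e2 : (j : ℤ) < (p : ℤ) ^ j := by exact_mod_cast e1
  have e3 := Int.self_le_toNat k
  have e4 : (k.toNat : ℤ) ≤ j := by exact_mod_cast hj
  nlinarith

include hs he h1 in
theorem LL_mono {y' : LaurentSeries (ZMod p)} (hy : y' ∈ LL s P) :
    ∃ i : ℕ, (s ^ p ^ i * y').coeff 0 ≠ 0 ∧ ∀ j : ℕ, j ≠ i → (s ^ p ^ j * y').coeff 0 = 0 := by
  obtain ⟨y, hb0, hb1, hE⟩ := hy
  set lam : ℕ → ZMod p := fun j => (s ^ p ^ j * y').coeff 0 with hlam
  set b : ℕ → ℕ → ZMod p := fun i j => (s ^ p ^ i * s ^ p ^ j * y).coeff 0 with hb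
  -- finite support
  obtain ⟨k', hk'⟩ := exists_V y'
  obtain ⟨n1, hn1⟩ := big he (-k')
  have hlam0 : ∀ j, n1 ≤ j → lam j = 0 := fun j hj =>
    coeff_zero_of_V (V_spow j) hk' (by have := hn1 j hj; omega)
  obtain ⟨k2, hk2⟩ := exists_V y
  obtain ⟨n2, hn2⟩ := big he (-k2)
  have hbz : ∀ i j, n2 ≤ i → b i j = 0 := by
    intro i j hi
    have e1 : V (s.order * (p : ℤ) ^ i + 0) (s ^ p ^ i * s ^ p ^ j) :=
      V_mul (V_spow i) ((V_spow j).mono (by
        have : 0 ≤ s.order * (p : ℤ) ^ j := by positivity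
        exact this))
    exact coeff_zero_of_V e1 hk2 (by have := hn2 i hi; omega)
  -- the bilinear form
  set E : LaurentSeries (ZMod p) → LaurentSeries (ZMod p) → ZMod p :=
    fun z w => (((z * w) ^ p - z * w) * y).coeff 0 with hEd
  have hEl : ∀ z z' w, E (z + z') w = E z w + E z' w := by
    intro z z' w
    simp only [hEd]
    rw [← HahnSeries.coeff_add]
    congr 1
    rw [add_mul, pow_p_add]
    ring
  have hEs : ∀ z w, E z w = E w z := by
    intro z w
    simp only [hEd]
    rw [mul_comm z w]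
  have hEg : ∀ i j, E (s ^ p ^ i) (s ^ p ^ j) = b (i + 1) (j + 1) - b i j := by
    intro i j
    simp only [hEd, hb]
    rw [← HahnSeries.coeff_sub]
    congr 1
    rw [mul_pow, ← pow_mul, ← pow_mul, ← pow_succ, ← pow_succ]
    ring
  have hb0j : ∀ j, b 0 (j + 1) = 0 := by
    intro j
    have := hb1 _ (h1 _ (gen_mem s j))
    rw [← pow_mul, ← pow_succ] at this
    simp only [hb]
    rw [pow_zero, pow_one]
    exact this
  have hb00 : b 0 0 ≠ 0 := by
    simp only [hb]
    rw [pow_zero, pow_one]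
    exact hb0
  -- some value is not zero
  have hex : ∃ i, lam i ≠ 0 := by
    by_contra hc
    push Not at hc
    have e1 : ∀ k, b k k = b 0 0 := by
      intro k
      induction k with
      | zero => rfl
      | succ k ih =>
        have := hE _ (h1 _ (gen_mem s k)) (hc k) _ (h1 _ (gen_mem s k))
        have e2 := hEg k k
        rw [show E (s ^ p ^ k) (s ^ p ^ k) = 0 from this] at e2
        rw [← ih]
        exact (sub_eq_zero.1 e2.symm)
    exact hb00 ((e1 n2).symm.trans (hbz n2 n2 le_rfl))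
  obtain ⟨i0, hi0⟩ := hex
  -- `E` is a multiple of `lam ⊗ lam`
  have hsc : ∀ (c : ZMod p) (z w : LaurentSeries (ZMod p)), E (c.val • z) w = c * E z w := by
    intro c z w
    have e1 : ∀ n : ℕ, E (n • z) w = n * E z w := by
      intro n
      induction n with
      | zero =>
        have := hEl 0 0 w
        rw [add_zero] at this
        rw [zero_smul, Nat.cast_zero, zero_mul]
        exact left_eq_add.1 this
      | succ n ih => rw [succ_nsmul, hEl, ih]; push_cast; ring
    rw [e1, ZMod.natCast_val, ZMod.cast_id]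
  have hlin : ∀ i (w : LaurentSeries (ZMod p)), w ∈ P →
      E (s ^ p ^ i) w = lam i / lam i0 * E (s ^ p ^ i0) w := by
    intro i w hw
    set c : ZMod p := - (lam i / lam i0) with hc
    have hz : s ^ p ^ i + c.val • s ^ p ^ i0 ∈ MM s :=
      (MM s).add_mem (gen_mem s i) ((MM s).nsmul_mem (gen_mem s i0) _)
    have e1 : ((s ^ p ^ i + c.val • s ^ p ^ i0) * y').coeff 0 = 0 := by
      rw [← fn_apply, map_add, map_nsmul, fn_apply, fn_apply, nsmul_eq_mul, ZMod.natCast_val,
        ZMod.cast_id]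
      change lam i + c * lam i0 = 0
      rw [hc]
      field_simp
      ring
    have e2 : E (s ^ p ^ i + c.val • s ^ p ^ i0) w = 0 := hE _ (h1 _ hz) e1 w hw
    rw [hEl, hsc] at e2
    rw [hc] at e2
    linear_combination e2
  set C : ZMod p := E (s ^ p ^ i0) (s ^ p ^ i0) / (lam i0 * lam i0) with hC
  have hEC : ∀ i j, b (i + 1) (j + 1) = b i j + C * (lam i * lam j) := by
    intro i j
    have e1 := hlin i _ (h1 _ (gen_mem s j))
    have e2 := hlin j _ (h1 _ (gen_mem s i0))
    rw [hEs (s ^ p ^ i0) (s ^ p ^ j), e2, hEg i j] at e1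
    rw [hC]
    field_simp at e1 ⊢
    linear_combination e1
  have htel : ∀ j k, b k (k + j) = b 0 j + C * ∑ r ∈ Finset.range k, lam r * lam (r + j) := by
    intro j k
    induction k with
    | zero => simp
    | succ k ih =>
      rw [Finset.sum_range_succ, show k + 1 + j = (k + j) + 1 by ring, hEC, ih]
      ring
  have hC0 : C ≠ 0 := by
    intro h
    have := htel 0 n2
    rw [hbz n2 _ le_rfl, h, zero_mul, add_zero] at this
    exact hb00 this.symm
  -- autocorrelation
  have haut : ∀ j, 0 < j → ∑ r ∈ Finset.range (n1 + n2), lam r * lam (r + j) = 0 := by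
    intro j hj
    obtain ⟨j', rfl⟩ : ∃ j', j = j' + 1 := ⟨j - 1, by omega⟩
    have := htel (j' + 1) (n1 + n2)
    rw [hbz _ _ (by omega), hb0j, zero_add] at this
    exact (mul_eq_zero.1 this.symm).resolve_left hC0
  classical
  set S : Finset ℕ := (Finset.range (n1 + n2)).filter fun r => lam r ≠ 0 with hS
  have hmemS : ∀ r, r ∈ S ↔ lam r ≠ 0 := by
    intro r
    rw [hS, Finset.mem_filter]
    refine ⟨fun h => h.2, fun h => ⟨Finset.mem_range.2 ?_, h⟩⟩
    by_contra hc
    exact h (hlam0 r (by omega))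
  have hSne : S.Nonempty := ⟨i0, (hmemS _).2 hi0⟩
  have hmin := S.min'_mem hSne
  have hmax := S.max'_mem hSne
  set r0 := S.min' hSne with hr0
  set r1 := S.max' hSne with hr1
  have hle : r0 ≤ r1 := S.min'_le _ hmax
  have heq : r0 = r1 := by
    by_contra hne
    have hlt : r0 < r1 := lt_of_le_of_ne hle hne
    have e1 := haut (r1 - r0) (by omega)
    rw [Finset.sum_eq_single r0] at e1
    · rw [show r0 + (r1 - r0) = r1 by omega] at e1
      exact mul_ne_zero ((hmemS _).1 hmin) ((hmemS _).1 hmax) e1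
    · intro r _ hr
      rcases lt_or_gt_of_ne hr with h | h
      · have : lam r = 0 := by
          by_contra hc
          have := S.min'_le r ((hmemS r).2 hc)
          omega
        rw [this, zero_mul]
      · have : lam (r + (r1 - r0)) = 0 := by
          by_contra hc
          have := S.le_max' _ ((hmemS _).2 hc)
          omega
        rw [this, mul_zero]
    · intro h
      exact absurd ((Finset.mem_filter.1 hmin).1) h
  refine ⟨r0, (hmemS _).1 hmin, fun j hj => ?_⟩
  by_contra hc
  have e1 := S.min'_le j ((hmemS j).2 hc)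
  have e2 := S.le_max' j ((hmemS j).2 hc)
  omega

end

end Pool.Agent.Run7.h755.MG
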