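import Pool.Agent.Run7.h755.MG.Add

/-! # Additive groups generated by the powers `s ^ (p ^ i)`, part 2 (helper755) -/

set_option autoImplicit false

namespace Pool.Agent.Run7.h755.MG

open Function
open Pool.Agent.Results.MP_db9079_lc.UniformFiniteness

variable {p : ℕ} [hp : Fact p.Prime]

section

variable {s : LaurentSeries (ZMod p)} (hs : s ≠ 0) (he : 0 < s.order)

include hs he

/-- the coordinate functionals -/
theorem coordE (i : ℕ) : ∃ y : LaurentSeries (ZMod p),
    V (-(s.order * ((p : ℤ) ^ i + 1)) + 1) y ∧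
    ∀ j : ℕ, (s ^ p ^ j * y).coeff 0 = if j = i then 1 else 0 := by
  obtain ⟨y, h1, h2⟩ := dualAll hs he (p ^ i + 1) (fun k => if k = p ^ i then 1 else 0)
    (fun k hk => if_neg (by omega))
  refine ⟨y, ?_, fun j => ?_⟩
  · push_cast at h1
    exact h1
  · rw [h2]
    by_cases hj : j = i
    · subst hj
      rw [if_pos rfl, if_pos rfl]
    · rw [if_neg hj, if_neg fun h => hj (Nat.pow_right_injective hp.out.two_le h)]

theorem coord_V {i N : ℕ} (hi : i < N) {y x : LaurentSeries (ZMod p)}
    (hy : V (-(s.order * ((p : ℤ) ^ i + 1)) + 1) y) (hx : V (s.order * (p : ℤ) ^ N) x) :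
    (x * y).coeff 0 = 0 := by
  refine coeff_zero_of_V hx hy ?_
  have e1 : p ^ i < p ^ N := Nat.pow_lt_pow_right hp.out.one_lt hi
  have e2 : (p : ℤ) ^ i + 1 ≤ (p : ℤ) ^ N := by exact_mod_cast e1
  nlinarith

/-- the expansion of an element of `MM s` -/
theorem repr_MM (Y : ℕ → LaurentSeries (ZMod p))
    (hY : ∀ i, V (-(s.order * ((p : ℤ) ^ i + 1)) + 1) (Y i) ∧
      ∀ j : ℕ, (s ^ p ^ j * Y i).coeff 0 = if j = i then 1 else 0) (N : ℕ)
    {a : LaurentSeries (ZMod p)} (ha : a ∈ MM s) :
    V (s.order * (p : ℤ) ^ N) (a - ∑ j ∈ Finset.range N,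
      HahnSeries.C ((a * Y j).coeff 0) * s ^ p ^ j) := by
  induction ha using AddSubgroup.closure_induction with
  | mem x hx =>
    obtain ⟨i, rfl⟩ := hx
    simp only [(hY _).2]
    by_cases hi : i < N
    · rw [Finset.sum_eq_single i]
      · rw [if_pos rfl, map_one, one_mul, sub_self]
        exact V_zero _
      · intro j _ hj
        rw [if_neg (Ne.symm hj), map_zero, zero_mul]
      · intro h
        exact absurd (Finset.mem_range.2 hi) h
    · rw [Finset.sum_eq_zero, sub_zero]
      · refine (V_spow i).mono ?_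
        have e1 : p ^ N ≤ p ^ i := Nat.pow_le_pow_right hp.out.pos (by omega)
        have e2 : (p : ℤ) ^ N ≤ (p : ℤ) ^ i := by exact_mod_cast e1
        exact mul_le_mul_of_nonneg_left e2 he.le
      · intro j hj
        have := Finset.mem_range.1 hj
        rw [if_neg (by omega), map_zero, zero_mul]
  | zero =>
    have : (0 : LaurentSeries (ZMod p)) - ∑ j ∈ Finset.range N,
        HahnSeries.C (((0 : LaurentSeries (ZMod p)) * Y j).coeff 0) * s ^ p ^ j = 0 := by
      rw [Finset.sum_eq_zero, sub_zero]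
      intro j _
      rw [zero_mul, HahnSeries.coeff_zero, map_zero, zero_mul]
    rw [this]
    exact V_zero _
  | add x y _ _ h1 h2 =>
    have e1 := V_add h1 h2
    have e2 : (x + y) - ∑ j ∈ Finset.range N,
        HahnSeries.C (((x + y) * Y j).coeff 0) * s ^ p ^ j =
        (x - ∑ j ∈ Finset.range N, HahnSeries.C ((x * Y j).coeff 0) * s ^ p ^ j) +
        (y - ∑ j ∈ Finset.range N, HahnSeries.C ((y * Y j).coeff 0) * s ^ p ^ j) := by
      have : ∑ j ∈ Finset.range N, HahnSeries.C (((x + y) * Y j).coeff 0) * s ^ p ^ j =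
          ∑ j ∈ Finset.range N, HahnSeries.C ((x * Y j).coeff 0) * s ^ p ^ j +
          ∑ j ∈ Finset.range N, HahnSeries.C ((y * Y j).coeff 0) * s ^ p ^ j := by
        rw [← Finset.sum_add_distrib]
        refine Finset.sum_congr rfl fun j _ => ?_
        rw [add_mul, HahnSeries.coeff_add, map_add, add_mul]
      rw [this]
      ring
    rw [e2]
    exact e1
  | neg x _ h1 =>
    have e1 := V_neg h1
    have e2 : -x - ∑ j ∈ Finset.range N,
        HahnSeries.C ((-x * Y j).coeff 0) * s ^ p ^ j =
        -(x - ∑ j ∈ Finset.range N, HahnSeries.C ((x * Y j).coeff 0) * s ^ p ^ j) := by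
      have : ∑ j ∈ Finset.range N, HahnSeries.C ((-x * Y j).coeff 0) * s ^ p ^ j =
          -∑ j ∈ Finset.range N, HahnSeries.C ((x * Y j).coeff 0) * s ^ p ^ j := by
        rw [← Finset.sum_neg_distrib]
        refine Finset.sum_congr rfl fun j _ => ?_
        rw [neg_mul, HahnSeries.coeff_neg, map_neg, neg_mul]
      rw [this]
      ring
    rw [e2]
    exact e1

variable {P : Set (LaurentSeries (ZMod p))}
  (h1 : ∀ a ∈ MM s, a ∈ P) (h2 : ∀ x ∈ P, ∀ k : ℤ, ∃ a ∈ MM s, V k (x - a))

include h1 h2

theorem coord_mem (i : ℕ) : ∃ y' ∈ LL s P, V (-(s.order * ((p : ℤ) ^ i + 1)) + 1) y' ∧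
    ∀ j : ℕ, (s ^ p ^ j * y').coeff 0 = if j = i then 1 else 0 := by
  obtain ⟨y', hV', hy'⟩ := coordE hs he i
  refine ⟨y', ?_, hV', hy'⟩
  classical
  obtain ⟨y, hV, hy⟩ := dualAll hs he (2 * p ^ i + 1)
    (fun k => if ∃ a ≤ i, k = 2 * p ^ a then 1 else 0) (by
      intro k hk
      refine if_neg ?_
      rintro ⟨a, ha, rfl⟩
      have := Nat.pow_le_pow_right hp.out.pos ha
      omega)
  have hb : ∀ a b : ℕ, (s ^ p ^ a * s ^ p ^ b * y).coeff 0 = if a = b ∧ a ≤ i then 1 else 0 := by
    intro a b
    rw [← pow_add, hy]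
    by_cases h : a = b ∧ a ≤ i
    · rw [if_pos h, if_pos ⟨a, h.2, by rw [h.1]; ring⟩]
    · rw [if_neg h, if_neg]
      rintro ⟨c, hc, hcc⟩
      obtain ⟨e1, e2⟩ := pow_sum_eq hcc
      exact h ⟨e1, by omega⟩
  have hs0 : V 0 s := (V_order s).mono he.le
  obtain ⟨k0, hk0⟩ := exists_V y
  obtain ⟨k1, hk1⟩ := exists_V y'
  refine ⟨y, ?_, fun w hw => ?_, fun z hz hz0 w hw => ?_⟩
  · have := hb 0 0
    rw [pow_zero, pow_one] at this
    rw [this, if_pos ⟨rfl, Nat.zero_le _⟩]
    exact one_ne_zero
  · obtain ⟨a, ha, hwa⟩ := h2 w hw (max 0 (-k0 + 1))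
    have e1 : (s * a ^ p * y).coeff 0 = 0 := by
      refine ext_MM (f := fun a => (s * a ^ p * y).coeff 0) (g := fun _ => 0) ?_ ?_ ?_ ha
      · intro x x'
        try simp only
        rw [← HahnSeries.coeff_add]
        congr 1
        rw [pow_p_add]
        ring
      · intro _ _
        simp
      · intro j
        have := hb 0 (j + 1)
        rw [pow_zero, pow_one, if_neg (by omega)] at this
        rw [← pow_mul, ← pow_succ]
        exact this
    have e2 : s * w ^ p * y = s * a ^ p * y + s * (w ^ p - a ^ p) * y := by ring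
    have hVa : V 0 a := MM_V hs0 ha
    have hVw : V 0 w := by
      have e3 : w = (w - a) + a := by ring
      rw [e3]
      exact V_add (hwa.mono (le_max_left _ _)) hVa
    have e4 : V (max 0 (-k0 + 1)) (s * (w ^ p - a ^ p)) := by
      have := V_mul hs0 (V_pow_sub hwa hVw hVa p)
      rwa [zero_add] at this
    rw [e2, HahnSeries.coeff_add, e1, zero_add]
    exact coeff_zero_of_V e4 hk0 (by have := le_max_right 0 (-k0 + 1); omega)
  · obtain ⟨a, ha, hza⟩ := h2 z hz (max 0 (max (-k0 + 1) (-k1 + 1)))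
    obtain ⟨d, hd, hwd⟩ := h2 w hw (max 0 (max (-k0 + 1) (-k1 + 1)))
    set k := max 0 (max (-k0 + 1) (-k1 + 1)) with hk
    have hk0' : 0 < k + k0 := by
      have := (le_max_left (-k0 + 1) (-k1 + 1)).trans (le_max_right 0 (max (-k0 + 1) (-k1 + 1)))
      omega
    have hk1' : 0 < k + k1 := by
      have := (le_max_right (-k0 + 1) (-k1 + 1)).trans (le_max_right 0 (max (-k0 + 1) (-k1 + 1)))
      omega
    have hkk : 0 ≤ k := le_max_left _ _
    have ha0 : (a * y').coeff 0 = 0 := by
      have e1 : a * y' = z * y' - (z - a) * y' := by ring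
      rw [e1, HahnSeries.coeff_sub, hz0, coeff_zero_of_V hza hk1 hk1', sub_zero]
    -- the bilinear form on the group
    have key : ∀ a ∈ MM s, ∀ d ∈ MM s, (((a * d) ^ p - a * d) * y).coeff 0 =
        -((a * y').coeff 0 * (d * y').coeff 0) := by
      intro a ha d hd
      refine ext_MM (f := fun a => (((a * d) ^ p - a * d) * y).coeff 0)
        (g := fun a => -((a * y').coeff 0 * (d * y').coeff 0)) ?_ ?_ ?_ ha
      · intro x x'
        try simp only
        rw [← HahnSeries.coeff_add]
        congr 1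
        rw [add_mul, pow_p_add]
        ring
      · intro x x'
        try simp only
        rw [add_mul, HahnSeries.coeff_add]
        ring
      · intro j
        refine ext_MM (f := fun d => (((s ^ p ^ j * d) ^ p - s ^ p ^ j * d) * y).coeff 0)
          (g := fun d => -((s ^ p ^ j * y').coeff 0 * (d * y').coeff 0)) ?_ ?_ ?_ hd
        · intro x x'
          try simp only
          rw [← HahnSeries.coeff_add]
          congr 1
          rw [mul_add, pow_p_add]
          ring
        · intro x x'
          try simp only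
          rw [add_mul, HahnSeries.coeff_add]
          ring
        · intro l
          try simp only
          have e1 : ((s ^ p ^ j * s ^ p ^ l) ^ p - s ^ p ^ j * s ^ p ^ l) * y =
              s ^ p ^ (j + 1) * s ^ p ^ (l + 1) * y - s ^ p ^ j * s ^ p ^ l * y := by
            rw [mul_pow, ← pow_mul, ← pow_mul, ← pow_succ, ← pow_succ]
            ring
          rw [e1, HahnSeries.coeff_sub, hb, hb, hy', hy']
          by_cases hjl : j = l
          · subst hjl
            rcases lt_trichotomy j i with h | h | h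
            · rw [if_pos ⟨rfl, by omega⟩, if_pos ⟨rfl, by omega⟩, if_neg (by omega)]
              ring
            · rw [if_neg (by omega), if_pos ⟨rfl, by omega⟩, if_pos h]
              ring
            · rw [if_neg (by omega), if_neg (by omega), if_neg (by omega)]
              ring
          · rw [if_neg (by omega), if_neg (by omega)]
            by_cases hji : j = i
            · rw [if_neg (show ¬ l = i by omega)]
              ring
            · rw [if_neg hji]
              ring
    have hVa : V 0 a := MM_V hs0 ha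
    have hVd : V 0 d := MM_V hs0 hd
    have hVw : V 0 w := by
      have e3 : w = (w - d) + d := by ring
      rw [e3]
      exact V_add (hwd.mono hkk) hVd
    have hVz : V 0 z := by
      have e3 : z = (z - a) + a := by ring
      rw [e3]
      exact V_add (hza.mono hkk) hVa
    have e5 : V k (z * w - a * d) := by
      have e6 : z * w - a * d = (z - a) * w + a * (w - d) := by ring
      rw [e6]
      refine V_add ?_ ?_
      · have := V_mul hza hVw
        rwa [add_zero] at this
      · have := V_mul hVa hwd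
        rwa [zero_add] at this
    have hVzw : V 0 (z * w) := by
      have := V_mul hVz hVw
      rwa [zero_add] at this
    have hVad : V 0 (a * d) := by
      have := V_mul hVa hVd
      rwa [zero_add] at this
    have e7 := V_pow_sub e5 hVzw hVad p
    have e8 : ((z * w) ^ p - z * w) * y = ((a * d) ^ p - a * d) * y +
        (((z * w) ^ p - (a * d) ^ p) - (z * w - a * d)) * y := by ring
    rw [e8, HahnSeries.coeff_add, key a ha d hd, ha0, zero_mul, neg_zero, zero_add]
    exact coeff_zero_of_V (V_sub e7 e5) hk0 hk0'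

/-- the elements `c s ^ (p ^ i)` -/
def BB (s : LaurentSeries (ZMod p)) : Set (LaurentSeries (ZMod p)) :=
  {x | x = 0 ∨ ∃ (i : ℕ) (c : ZMod p), c ≠ 0 ∧ x = HahnSeries.C c * s ^ p ^ i}

theorem AA_sub {x : LaurentSeries (ZMod p)} (hx : x ∈ AA s P) : x ∈ BB s := by
  choose Y hYL hY using coord_mem hs he h1 h2
  -- at most one coordinate is not zero
  have hone : ∀ i k : ℕ, (x * Y i).coeff 0 ≠ 0 → (x * Y k).coeff 0 ≠ 0 → i = k := by
    intro i k hi hk
    by_contra hne
    have := hx.2 _ (hYL i) _ (hYL k) hi hk _ (h1 _ (gen_mem s k)) (by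
      rw [(hY i).2, if_neg (Ne.symm hne)])
    rw [(hY k).2, if_pos rfl] at this
    exact one_ne_zero this
  have hrep : ∀ N : ℕ, V (s.order * (p : ℤ) ^ N) (x - ∑ j ∈ Finset.range N,
      HahnSeries.C ((x * Y j).coeff 0) * s ^ p ^ j) := by
    intro N
    obtain ⟨a, ha, hxa⟩ := h2 x hx.1 (s.order * (p : ℤ) ^ N)
    have e1 := repr_MM hs he Y hY N ha
    have e2 : ∀ j ∈ Finset.range N, HahnSeries.C ((x * Y j).coeff 0) * s ^ p ^ j =
        HahnSeries.C ((a * Y j).coeff 0) * s ^ p ^ j := by
      intro j hj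
      have e3 : x * Y j = a * Y j + (x - a) * Y j := by ring
      rw [e3, HahnSeries.coeff_add, coord_V hs he (Finset.mem_range.1 hj) (hY j).1 hxa, add_zero]
    rw [Finset.sum_congr rfl e2]
    have e4 : x - ∑ j ∈ Finset.range N, HahnSeries.C ((a * Y j).coeff 0) * s ^ p ^ j =
        (x - a) + (a - ∑ j ∈ Finset.range N, HahnSeries.C ((a * Y j).coeff 0) * s ^ p ^ j) := by
      ring
    rw [e4]
    exact V_add hxa e1
  by_cases hex : ∃ i, (x * Y i).coeff 0 ≠ 0
  · obtain ⟨i, hi⟩ := hex
    refine Or.inr ⟨i, _, hi, ?_⟩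
    ext k
    obtain ⟨n, hn⟩ := big he k
    have e1 := hrep (i + 1 + n) k (hn _ (by omega))
    rw [Finset.sum_eq_single i] at e1
    · rw [HahnSeries.coeff_sub, sub_eq_zero] at e1
      exact e1
    · intro j _ hj
      have : (x * Y j).coeff 0 = 0 := by
        by_contra hc
        exact hj (hone j i hc hi)
      rw [this, map_zero, zero_mul]
    · intro h
      exact absurd (Finset.mem_range.2 (by omega)) h
  · push Not at hex
    refine Or.inl ?_
    ext k
    obtain ⟨n, hn⟩ := big he k
    have e1 := hrep n k (hn _ le_rfl)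
    rw [Finset.sum_eq_zero, sub_zero] at e1
    · rw [e1]
      rfl
    · intro j _
      rw [hex j, map_zero, zero_mul]

theorem gen_AA (i : ℕ) : s ^ p ^ i ∈ AA s P := by
  refine ⟨h1 _ (gen_mem s i), fun y' hy' y'' hy'' hc' hc'' w hw hw0 => ?_⟩
  obtain ⟨i', hi', hi'2⟩ := LL_mono hs he h1 hy'
  obtain ⟨i'', hi'', hi''2⟩ := LL_mono hs he h1 hy''
  have e1 : i' = i := by
    by_contra hne
    exact hc' (hi'2 i (Ne.symm hne))
  have e2 : i'' = i := by
    by_contra hne
    exact hc'' (hi''2 i (Ne.symm hne))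
  subst e1
  subst e2
  obtain ⟨k1, hk1⟩ := exists_V y'
  obtain ⟨k2, hk2⟩ := exists_V y''
  obtain ⟨a, ha, hwa⟩ := h2 w hw (max (-k1 + 1) (-k2 + 1))
  have f1 := le_max_left (-k1 + 1) (-k2 + 1)
  have f2 := le_max_right (-k1 + 1) (-k2 + 1)
  have e3 : (a * y').coeff 0 = 0 := by
    have : a * y' = w * y' - (w - a) * y' := by ring
    rw [this, HahnSeries.coeff_sub, hw0, coeff_zero_of_V hwa hk1 (by omega), sub_zero]
  -- the two functionals are proportional on the group
  have e4 : (a * y'').coeff 0 * (s ^ p ^ i'' * y').coeff 0 =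
      (a * y').coeff 0 * (s ^ p ^ i'' * y'').coeff 0 := by
    refine ext_MM (f := fun a => (a * y'').coeff 0 * (s ^ p ^ i'' * y').coeff 0)
      (g := fun a => (a * y').coeff 0 * (s ^ p ^ i'' * y'').coeff 0) ?_ ?_ ?_ ha
    · intro x x'
      try simp only
      rw [add_mul x x', HahnSeries.coeff_add]
      ring
    · intro x x'
      try simp only
      rw [add_mul x x', HahnSeries.coeff_add]
      ring
    · intro j
      try simp only
      by_cases hj : j = i''
      · subst hj
        ring
      · rw [hi'2 j hj, hi''2 j hj]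
        ring
  rw [e3, zero_mul] at e4
  have e5 : (a * y'').coeff 0 = 0 := (mul_eq_zero.1 e4).resolve_right hi'
  have : w * y'' = a * y'' + (w - a) * y'' := by ring
  rw [this, HahnSeries.coeff_add, e5, coeff_zero_of_V hwa hk2 (by omega), add_zero]

end

theorem BB_scattered {s : LaurentSeries (ZMod p)} (hs : s ≠ 0) (he : 0 < s.order)
    {S : Set (LaurentSeries (ZMod p))} (hS : S ⊆ BB s) : Scattered p S := by
  intro T hTS hne
  have hC : ∀ (c : ZMod p) (x : LaurentSeries (ZMod p)) (k : ℤ),
      (HahnSeries.C c * x).coeff k = c * x.coeff k := by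
    intro c x k
    rw [HahnSeries.C_mul_eq_smul, HahnSeries.coeff_smul, smul_eq_mul]
  have hmono : ∀ i j : ℕ, i < j → s.order * (p : ℤ) ^ i < s.order * (p : ℤ) ^ j := by
    intro i j hij
    have e1 : p ^ i < p ^ j := Nat.pow_lt_pow_right hp.out.one_lt hij
    have e2 : (p : ℤ) ^ i < (p : ℤ) ^ j := by exact_mod_cast e1
    exact mul_lt_mul_of_pos_left e2 he
  by_cases hi : ∃ (i : ℕ) (c : ZMod p), c ≠ 0 ∧ HahnSeries.C c * s ^ p ^ i ∈ T
  · obtain ⟨i, c, hc, hi⟩ := hi
    refine ⟨_, hi, HahnSeries.single (s.order * (p : ℤ) ^ i + 1) (1 : ZMod p), ?_, ?_⟩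
    · intro h
      exact one_ne_zero (HahnSeries.single_eq_zero_iff.1 h)
    · rintro y hy ⟨z, hz, hzy⟩
      have hag := (Pool.Agent.Y697.UF.ball_single (s.order * (p : ℤ) ^ i + 1)
        (HahnSeries.C c * s ^ p ^ i) y).1 ⟨z, hz, by rw [← hzy]; ring⟩
      have h3 := hag (s.order * (p : ℤ) ^ i) (by omega)
      rw [hC] at h3
      rcases hTS hy |> fun h => hS h with rfl | ⟨j, d, hd, rfl⟩
      · exact absurd h3 (mul_ne_zero hc (coeff_spow hs i))
      · rw [hC] at h3
        rcases lt_trichotomy i j with h4 | rfl | h4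
        · exfalso
          rw [V_spow j _ (hmono i j h4), mul_zero] at h3
          exact mul_ne_zero hc (coeff_spow hs i) h3
        · rw [mul_right_cancel₀ (coeff_spow hs i) h3]
        · exfalso
          have h5 := hmono j i h4
          have h6 := hag (s.order * (p : ℤ) ^ j) (by omega)
          rw [hC, hC, V_spow i _ h5, mul_zero] at h6
          exact mul_ne_zero hd (coeff_spow hs j) h6.symm
  · obtain ⟨x, hx⟩ := hne
    have h1 : ∀ y ∈ T, y = 0 := by
      intro y hy
      rcases hS (hTS hy) with h | ⟨i, c, hc, h⟩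
      · exact h
      · exact absurd ⟨i, c, hc, h ▸ hy⟩ hi
    refine ⟨x, hx, 1, one_ne_zero, fun y hy _ => ?_⟩
    rw [h1 y hy, h1 x hx]

end Pool.Agent.Run7.h755.MG
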