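import Pool.Agent.Run7.h755.MG.Add2

/-! # The formula which defines the elements `c s ^ (p ^ i)` (helper755) -/

set_option autoImplicit false

namespace Pool.Agent.Run7.h755.MG

open Function
open Pool.Agent.Y924.EL Pool.Agent.Y924.UF
open Pool.Agent.Results.MP_db9079_lc.UniformFiniteness

variable {p : ℕ} [hp : Fact p.Prime]

/-- the assignment `v` has the right parameters -/
def Gd (s : LaurentSeries (ZMod p)) (W v : ℕ → LaurentSeries (ZMod p)) : Prop :=
  v 64 = HahnSeries.single (1 : ℤ) (1 : ZMod p) ∧ v 65 = s ∧ ∀ i, 1 ≤ i → v (i + 100) = W i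

section

variable {s : LaurentSeries (ZMod p)} {W : ℕ → LaurentSeries (ZMod p)}
  (O : Set (LaurentSeries (ZMod p)))

theorem Gd.upd {v : ℕ → LaurentSeries (ZMod p)} (h : Gd s W v) {k : ℕ} (h1 : k ≠ 64)
    (h2 : k ≠ 65) (h3 : k ≤ 100) (a : LaurentSeries (ZMod p)) : Gd s W (update v k a) := by
  refine ⟨?_, ?_, fun i hi => ?_⟩
  · rw [update_of_ne (Ne.symm h1)]
    exact h.1
  · rw [update_of_ne (Ne.symm h2)]
    exact h.2.1
  · rw [update_of_ne (by omega)]
    exact h.2.2 i hi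

theorem exq {i j k : ℕ} (hi : i ≠ k) (hj : j ≠ k) (φ : Fm) (v : ℕ → LaurentSeries (ZMod p)) :
    Sat O (.ex k (.and (.mul i j k) φ)) v ↔ Sat O φ (update v k (v i * v j)) := by
  simp only [Sat, update_self, update_of_ne hi, update_of_ne hj]
  constructor
  · rintro ⟨a, rfl, h⟩
    exact h
  · intro h
    exact ⟨_, rfl, h⟩

theorem exd {i j k : ℕ} (hi : i ≠ k) (hj : j ≠ k) (φ : Fm) (v : ℕ → LaurentSeries (ZMod p)) :
    Sat O (.ex k (.and (.add i k j) φ)) v ↔ Sat O φ (update v k (v j - v i)) := by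
  simp only [Sat, update_self, update_of_ne hi, update_of_ne hj]
  constructor
  · rintro ⟨a, h0, h⟩
    have : a = v j - v i := by rw [← h0]; ring
    rwa [← this]
  · intro h
    exact ⟨_, by ring, h⟩

theorem exp' {n i k : ℕ} (hi : 10 ≤ i) (hk : 10 ≤ k) (hik : i ≠ k) (φ : Fm)
    (v : ℕ → LaurentSeries (ZMod p)) :
    Sat O (.ex k (.and (powC n i k) φ)) v ↔ Sat O φ (update v k (v i ^ n)) := by
  simp only [Sat, Pool.Agent.Y383.UF.sat_powC O hi hk, update_self, update_of_ne hik]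
  constructor
  · rintro ⟨a, rfl, h⟩
    exact h
  · intro h
    exact ⟨_, rfl, h⟩

/-- `x_a` is `g ^ p - g` for an element `g` of the set -/
def QF (p : ℕ) (ψ : Fm) (a : ℕ) : Fm :=
  .ex 90 (.and (SF ψ 90) (.ex 91 (.and (powC p 90 91) (.add a 90 91))))

/-- the set of the `g ^ p - g` -/
def PP (O : Set (LaurentSeries (ZMod p))) (ψ : Fm) (W : ℕ → LaurentSeries (ZMod p)) :
    Set (LaurentSeries (ZMod p)) := {x | ∃ g, Sat O ψ (update W 0 g) ∧ x = g ^ p - g}

theorem sat_QF (ψ : Fm) {a : ℕ} (h1 : a ≠ 90) (h2 : a ≠ 91) {v : ℕ → LaurentSeries (ZMod p)}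
    (hv : Gd s W v) : Sat O (QF p ψ a) v ↔ v a ∈ PP O ψ W := by
  have hsh : ∀ g : LaurentSeries (ZMod p),
      update (fun i => update v 90 g (i + 100)) 0 g = update W 0 g := by
    intro g
    funext i
    by_cases hi : i = 0
    · subst hi
      rw [update_self, update_self]
    · rw [update_of_ne hi, update_of_ne hi, update_of_ne (by omega)]
      exact hv.2.2 i (by omega)
  change (∃ g, Sat O (SF ψ 90) (update v 90 g) ∧
    Sat O (.ex 91 (.and (powC p 90 91) (.add a 90 91))) (update v 90 g)) ↔ _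
  refine exists_congr fun g => ?_
  rw [sat_SF O ψ (show 90 ≠ 100 by norm_num), update_self, hsh,
    exp' O (by norm_num) (by norm_num) (by norm_num)]
  refine and_congr Iff.rfl ?_
  change update (update v 90 g) 91 (update v 90 g 90 ^ p) a +
    update (update v 90 g) 91 (update v 90 g 90 ^ p) 90 =
    update (update v 90 g) 91 (update v 90 g 90 ^ p) 91 ↔ _
  simp only [update_self, update_of_ne h2, update_of_ne h1,
    update_of_ne (show (90 : ℕ) ≠ 91 by norm_num)]
  constructor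
  · intro h
    rw [← h]
    ring
  · intro h
    rw [h]
    ring

/-- first condition -/
def C1 (p : ℕ) : Fm := .ex 75 (.and (.mul 65 65 75) (.neg (ZF p 75 74)))

/-- second condition -/
def C2 (p : ℕ) (ψ : Fm) : Fm :=
  .neg (.ex 72 (.and (QF p ψ 72) (.ex 76 (.and (powC p 72 76)
    (.ex 75 (.and (.mul 65 76 75) (.neg (ZF p 75 74))))))))

/-- third condition -/
def C3 (p : ℕ) (ψ : Fm) (a : ℕ) : Fm :=
  .neg (.ex 71 (.and (QF p ψ 71) (.and (ZF p 71 a) (.ex 72 (.and (QF p ψ 72)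
    (.ex 75 (.and (.mul 71 72 75) (.ex 76 (.and (powC p 75 76)
      (.ex 77 (.and (.add 75 77 76) (.neg (ZF p 77 74))))))))))))) 

/-- `x_a` is in `LL` -/
def LF (p : ℕ) (ψ : Fm) (a : ℕ) : Fm :=
  .ex 74 (.and (C1 p) (.and (C2 p ψ) (C3 p ψ a)))

theorem sat_C1 {v : ℕ → LaurentSeries (ZMod p)} (hv : Gd s W v) :
    Sat O (C1 p) v ↔ (s * s * v 74).coeff 0 ≠ 0 := by
  rw [C1, exq O (by norm_num) (by norm_num)]
  change ¬ Sat O (ZF p 75 74) _ ↔ _
  rw [sat_ZF O (by norm_num) (by norm_num) _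
    (hv.upd (k := 75) (by norm_num) (by norm_num) (by norm_num) _).1]
  rw [update_self, update_of_ne (show 74 ≠ 75 by norm_num), hv.2.1]

theorem sat_C2 (ψ : Fm) {v : ℕ → LaurentSeries (ZMod p)} (hv : Gd s W v) :
    Sat O (C2 p ψ) v ↔ ∀ w ∈ PP O ψ W, (s * w ^ p * v 74).coeff 0 = 0 := by
  change (¬ ∃ w, Sat O (QF p ψ 72) (update v 72 w) ∧ Sat O (.ex 76 (.and (powC p 72 76)
    (.ex 75 (.and (.mul 65 76 75) (.neg (ZF p 75 74)))))) (update v 72 w)) ↔ _
  have hv1 : ∀ w, Gd s W (update v 72 w) :=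
    fun w => hv.upd (by norm_num) (by norm_num) (by norm_num) w
  have hv2 : ∀ w c, Gd s W (update (update v 72 w) 76 c) :=
    fun w c => (hv1 w).upd (by norm_num) (by norm_num) (by norm_num) c
  have hv3 : ∀ w c d, Gd s W (update (update (update v 72 w) 76 c) 75 d) :=
    fun w c d => (hv2 w c).upd (by norm_num) (by norm_num) (by norm_num) d
  have key : ∀ w, Sat O (.ex 76 (.and (powC p 72 76)
      (.ex 75 (.and (.mul 65 76 75) (.neg (ZF p 75 74)))))) (update v 72 w) ↔
      (s * w ^ p * v 74).coeff 0 ≠ 0 := by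
    intro w
    rw [exp' O (by norm_num) (by norm_num) (by norm_num), exq O (by norm_num) (by norm_num)]
    change ¬ Sat O (ZF p 75 74) _ ↔ _
    rw [sat_ZF O (by norm_num) (by norm_num) _ (hv3 _ _ _).1]
    rw [update_self (a := 75), update_of_ne (show 74 ≠ 75 by norm_num),
      update_of_ne (show 74 ≠ 76 by norm_num), update_of_ne (show 74 ≠ 72 by norm_num),
      (hv2 _ _).2.1, update_self (a := 76), update_self (a := 72)]
  simp only [sat_QF O ψ (show 72 ≠ 90 by norm_num) (show 72 ≠ 91 by norm_num) (hv1 _),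
    update_self, key]
  push Not
  rfl

theorem sat_C3 (ψ : Fm) {a : ℕ} (ha : a = 78 ∨ a = 79) {v : ℕ → LaurentSeries (ZMod p)}
    (hv : Gd s W v) :
    Sat O (C3 p ψ a) v ↔ ∀ z ∈ PP O ψ W, (z * v a).coeff 0 = 0 → ∀ w ∈ PP O ψ W,
      (((z * w) ^ p - z * w) * v 74).coeff 0 = 0 := by
  change (¬ ∃ z, Sat O (QF p ψ 71) (update v 71 z) ∧ Sat O (ZF p 71 a) (update v 71 z) ∧
    ∃ w, Sat O (QF p ψ 72) (update (update v 71 z) 72 w) ∧
    Sat O (.ex 75 (.and (.mul 71 72 75) (.ex 76 (.and (powC p 75 76)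
      (.ex 77 (.and (.add 75 77 76) (.neg (ZF p 77 74)))))))) (update (update v 71 z) 72 w)) ↔ _
  have hv1 : ∀ z, Gd s W (update v 71 z) :=
    fun z => hv.upd (by norm_num) (by norm_num) (by norm_num) z
  have hv2 : ∀ z w, Gd s W (update (update v 71 z) 72 w) :=
    fun z w => (hv1 z).upd (by norm_num) (by norm_num) (by norm_num) w
  have hv3 : ∀ z w c, Gd s W (update (update (update v 71 z) 72 w) 75 c) :=
    fun z w c => (hv2 z w).upd (by norm_num) (by norm_num) (by norm_num) c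
  have hv4 : ∀ z w c d, Gd s W (update (update (update (update v 71 z) 72 w) 75 c) 76 d) :=
    fun z w c d => (hv3 z w c).upd (by norm_num) (by norm_num) (by norm_num) d
  have hv5 : ∀ z w c d e,
      Gd s W (update (update (update (update (update v 71 z) 72 w) 75 c) 76 d) 77 e) :=
    fun z w c d e => (hv4 z w c d).upd (by norm_num) (by norm_num) (by norm_num) e
  have key : ∀ z w, Sat O (.ex 75 (.and (.mul 71 72 75) (.ex 76 (.and (powC p 75 76)
      (.ex 77 (.and (.add 75 77 76) (.neg (ZF p 77 74)))))))) (update (update v 71 z) 72 w) ↔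
      (((z * w) ^ p - z * w) * v 74).coeff 0 ≠ 0 := by
    intro z w
    rw [exq O (by norm_num) (by norm_num), exp' O (by norm_num) (by norm_num) (by norm_num),
      exd O (by norm_num) (by norm_num)]
    change ¬ Sat O (ZF p 77 74) _ ↔ _
    rw [sat_ZF O (by norm_num) (by norm_num) _ (hv5 _ _ _ _ _).1]
    simp only [update_apply]
    norm_num
  have key2 : ∀ z, Sat O (ZF p 71 a) (update v 71 z) ↔ (z * v a).coeff 0 = 0 := by
    intro z
    rw [sat_ZF O (by norm_num) (by omega) _ (hv1 z).1, update_self, update_of_ne (by omega)]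
  simp only [sat_QF O ψ (show 71 ≠ 90 by norm_num) (show 71 ≠ 91 by norm_num) (hv1 _),
    sat_QF O ψ (show 72 ≠ 90 by norm_num) (show 72 ≠ 91 by norm_num) (hv2 _ _),
    update_self, key, key2]
  push Not
  rfl

theorem sat_LF (ψ : Fm) {a : ℕ} (ha : a = 78 ∨ a = 79) {v : ℕ → LaurentSeries (ZMod p)}
    (hv : Gd s W v) : Sat O (LF p ψ a) v ↔ v a ∈ LL s (PP O ψ W) := by
  change (∃ y, Sat O (C1 p) (update v 74 y) ∧ Sat O (C2 p ψ) (update v 74 y) ∧
    Sat O (C3 p ψ a) (update v 74 y)) ↔ _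
  refine exists_congr fun y => ?_
  have hv1 : Gd s W (update v 74 y) := hv.upd (by norm_num) (by norm_num) (by norm_num) y
  rw [sat_C1 O hv1, sat_C2 O ψ hv1, sat_C3 O ψ ha hv1, update_self, update_of_ne (by omega)]

/-- the formula -/
def AF (p : ℕ) (ψ : Fm) : Fm :=
  .ex 73 (.and (.eq 73 0) (.and (QF p ψ 73) (.neg (.ex 78 (.and (LF p ψ 78)
    (.ex 79 (.and (LF p ψ 79) (.and (.neg (ZF p 73 78)) (.and (.neg (ZF p 73 79))
      (.ex 72 (.and (QF p ψ 72) (.and (ZF p 72 78) (.neg (ZF p 72 79)))))))))))))) 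

theorem sat_AF (ψ : Fm) {v : ℕ → LaurentSeries (ZMod p)} (hv : Gd s W v) :
    Sat O (AF p ψ) v ↔ v 0 ∈ AA s (PP O ψ W) := by
  have g1 : ∀ x, Gd s W (update v 73 x) :=
    fun x => hv.upd (by norm_num) (by norm_num) (by norm_num) x
  have g2 : ∀ x a, Gd s W (update (update v 73 x) 78 a) :=
    fun x a => (g1 x).upd (by norm_num) (by norm_num) (by norm_num) a
  have g3 : ∀ x a b, Gd s W (update (update (update v 73 x) 78 a) 79 b) :=
    fun x a b => (g2 x a).upd (by norm_num) (by norm_num) (by norm_num) b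
  have g4 : ∀ x a b w, Gd s W (update (update (update (update v 73 x) 78 a) 79 b) 72 w) :=
    fun x a b w => (g3 x a b).upd (by norm_num) (by norm_num) (by norm_num) w
  have t1 : ∀ x, Sat O (.eq 73 0) (update v 73 x) ↔ x = v 0 := by
    intro x
    change update v 73 x 73 = update v 73 x 0 ↔ _
    rw [update_self, update_of_ne (by norm_num)]
  have t2 : ∀ x, Sat O (QF p ψ 73) (update v 73 x) ↔ x ∈ PP O ψ W := by
    intro x
    rw [sat_QF O ψ (by norm_num) (by norm_num) (g1 x), update_self]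
  have t3 : ∀ x a, Sat O (LF p ψ 78) (update (update v 73 x) 78 a) ↔ a ∈ LL s (PP O ψ W) := by
    intro x a
    rw [sat_LF O ψ (Or.inl rfl) (g2 x a), update_self]
  have t4 : ∀ x a b, Sat O (LF p ψ 79) (update (update (update v 73 x) 78 a) 79 b) ↔
      b ∈ LL s (PP O ψ W) := by
    intro x a b
    rw [sat_LF O ψ (Or.inr rfl) (g3 x a b), update_self]
  have t5 : ∀ x a b, Sat O (ZF p 73 78) (update (update (update v 73 x) 78 a) 79 b) ↔
      (x * a).coeff 0 = 0 := by
    intro x a b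
    rw [sat_ZF O (by norm_num) (by norm_num) _ (g3 x a b).1]
    simp only [update_apply]
    norm_num
  have t6 : ∀ x a b, Sat O (ZF p 73 79) (update (update (update v 73 x) 78 a) 79 b) ↔
      (x * b).coeff 0 = 0 := by
    intro x a b
    rw [sat_ZF O (by norm_num) (by norm_num) _ (g3 x a b).1]
    simp only [update_apply]
    norm_num
  have t7 : ∀ x a b w, Sat O (QF p ψ 72)
      (update (update (update (update v 73 x) 78 a) 79 b) 72 w) ↔ w ∈ PP O ψ W := by
    intro x a b w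
    rw [sat_QF O ψ (by norm_num) (by norm_num) (g4 x a b w), update_self]
  have t8 : ∀ x a b w, Sat O (ZF p 72 78)
      (update (update (update (update v 73 x) 78 a) 79 b) 72 w) ↔ (w * a).coeff 0 = 0 := by
    intro x a b w
    rw [sat_ZF O (by norm_num) (by norm_num) _ (g4 x a b w).1]
    simp only [update_apply]
    norm_num
  have t9 : ∀ x a b w, Sat O (ZF p 72 79)
      (update (update (update (update v 73 x) 78 a) 79 b) 72 w) ↔ (w * b).coeff 0 = 0 := by
    intro x a b w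
    rw [sat_ZF O (by norm_num) (by norm_num) _ (g4 x a b w).1]
    simp only [update_apply]
    norm_num
  simp only [AF]
  simp only [Sat.eq_8, Sat.eq_7, Sat.eq_6, t1, t2, t3, t4, t5, t6, t7, t8, t9]
  constructor
  · rintro ⟨x, rfl, h1, h2⟩
    refine ⟨h1, fun a ha b hb hxa hxb w hw hwa => ?_⟩
    by_contra hc
    exact h2 ⟨a, ha, b, hb, hxa, hxb, w, hw, hwa, hc⟩
  · rintro ⟨h1, h2⟩
    refine ⟨v 0, rfl, h1, ?_⟩
    rintro ⟨a, ha, b, hb, hxa, hxb, w, hw, hwa, hc⟩
    exact hc (h2 a ha b hb hxa hxb w hw hwa)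

end

end Pool.Agent.Run7.h755.MG
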