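import Pool.Agent.Run7.h755.MG.Val

/-! # All functions on the powers of a one-unit are given by elements (helper755) -/

set_option autoImplicit false

namespace Pool.Agent.Run7.h755.MG

open Function

variable {p : ℕ} [hp : Fact p.Prime]

/-- the functional given by `z` -/
noncomputable def fn (z : LaurentSeries (ZMod p)) : LaurentSeries (ZMod p) →+ ZMod p where
  toFun x := (x * z).coeff 0
  map_zero' := by rw [zero_mul]; rfl
  map_add' x y := by rw [add_mul, HahnSeries.coeff_add]

theorem fn_apply (x z : LaurentSeries (ZMod p)) : fn z x = (x * z).coeff 0 := rfl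

theorem dualS {s : LaurentSeries (ZMod p)} (hs : s ≠ 0) (he : 0 < s.order) (M : ℕ) :
    ∀ c : ℕ → ZMod p, ∃ y, V (-(s.order * M) + 1) y ∧ ∀ j < M, (s ^ j * y).coeff 0 = c j := by
  induction M with
  | zero => exact fun c => ⟨0, V_zero _, fun j hj => absurd hj (Nat.not_lt_zero j)⟩
  | succ M ih =>
    intro c
    have ho : (s ^ M).order = s.order * M := by
      rw [HahnSeries.order_pow, nsmul_eq_mul, mul_comm]
    have hl : (s ^ M).coeff (s.order * M) ≠ 0 := by
      rw [← ho]
      exact coeff_order_ne (pow_ne_zero M hs)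
    set l := (s ^ M).coeff (s.order * M) with hld
    set y1 : LaurentSeries (ZMod p) := HahnSeries.single (-(s.order * M)) (c M / l) with hy1
    obtain ⟨y2, h1, h2⟩ := ih fun j => c j - (s ^ j * y1).coeff 0
    have hM : (s ^ M * y1).coeff 0 = c M := by
      have h3 := HahnSeries.coeff_mul_single_add (r := c M / l) (x := s ^ M)
        (a := s.order * M) (b := -(s.order * M))
      rw [add_neg_cancel] at h3
      rw [h3]
      exact mul_div_cancel₀ _ hl
    refine ⟨y1 + y2, V_add ?_ (h1.mono ?_), fun j hj => ?_⟩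
    · intro i hi
      refine HahnSeries.coeff_single_of_ne ?_
      push_cast at hi
      intro h
      nlinarith
    · push_cast
      nlinarith
    · rw [mul_add, HahnSeries.coeff_add]
      rcases Nat.lt_succ_iff_lt_or_eq.1 hj with h3 | rfl
      · rw [h2 j h3]
        ring
      · rw [hM]
        have h4 : (s ^ j * y2).coeff 0 = 0 := by
          refine coeff_zero_of_V (k := s.order * j) ?_ h1 (by omega)
          rw [← ho]
          exact V_order _
        rw [h4, add_zero]

theorem dualU {s : LaurentSeries (ZMod p)} (hs : s ≠ 0) (he : 0 < s.order) (M : ℕ) :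
    ∀ f : ℕ → ZMod p, ∃ y, V (-(s.order * M) + 1) y ∧
      ∀ m < M, ((1 + s) ^ m * y).coeff 0 = f m := by
  induction M with
  | zero => exact fun c => ⟨0, V_zero _, fun j hj => absurd hj (Nat.not_lt_zero j)⟩
  | succ M ih =>
    intro f
    obtain ⟨y, h1, h2⟩ := ih f
    obtain ⟨z, h3, h4⟩ := dualS hs he (M + 1)
      (fun j => if j = M then f M - ((1 + s) ^ M * y).coeff 0 else 0)
    have h5 : ∀ m ≤ M, ((1 + s) ^ m * z).coeff 0 =
        if m = M then f M - ((1 + s) ^ M * y).coeff 0 else 0 := by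
      intro m hm
      have h0 : ((1 + s) ^ m * z).coeff 0 = fn z ((s + 1) ^ m) := by
        rw [add_comm s 1]; rfl
      rw [h0, add_pow, map_sum]
      have h6 : ∀ j ∈ Finset.range (m + 1), fn z (s ^ j * 1 ^ (m - j) * (m.choose j : LaurentSeries (ZMod p))) =
          if j = M then f M - ((1 + s) ^ M * y).coeff 0 else 0 := by
        intro j hj
        have hj1 : j < m + 1 := Finset.mem_range.1 hj
        have h7 : s ^ j * 1 ^ (m - j) * (m.choose j : LaurentSeries (ZMod p)) =
            m.choose j • s ^ j := by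
          rw [one_pow, mul_one, nsmul_eq_mul, mul_comm]
        rw [h7, map_nsmul, fn_apply, h4 j (by omega)]
        by_cases hjM : j = M
        · have : m = j := by omega
          subst this
          rw [Nat.choose_self, one_nsmul]
        · rw [if_neg hjM, nsmul_zero]
      rw [Finset.sum_congr rfl h6, Finset.sum_ite_eq' ]
      by_cases hmM : m = M
      · subst hmM
        rw [if_pos (Finset.mem_range.2 (Nat.lt_succ_self _)), if_pos rfl]
      · rw [if_neg (fun h => hmM (by have := Finset.mem_range.1 h; omega)), if_neg hmM]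
    refine ⟨y + z, V_add (h1.mono ?_) h3, fun m hm => ?_⟩
    · push_cast
      nlinarith
    · rw [mul_add, HahnSeries.coeff_add, h5 m (by omega)]
      rcases Nat.lt_succ_iff_lt_or_eq.1 hm with h6 | rfl
      · rw [h2 m h6, if_neg (by omega), add_zero]
      · rw [if_pos rfl]
        ring

theorem one_add_pow_char (s : LaurentSeries (ZMod p)) (N : ℕ) :
    (1 + s) ^ p ^ N = 1 + s ^ p ^ N := by
  have := Pool.Agent.Y15.UF.inst_char (p := p)
  rw [add_pow_char_pow, one_pow]

/-- every periodic function -/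
theorem dualP {s : LaurentSeries (ZMod p)} (hs : s ≠ 0) (he : 0 < s.order) (N : ℕ)
    (F : ℤ → ZMod p) (hF : ∀ n k : ℤ, F (n + p ^ N * k) = F n) :
    ∃ y, V (-(s.order * p ^ N) + 1) y ∧ ∀ n : ℤ, ((1 + s) ^ n * y).coeff 0 = F n := by
  obtain ⟨y, h1, h2⟩ := dualU hs he (p ^ N) fun m => F m
  have hPpos : 0 < p ^ N := pow_pos hp.out.pos N
  push_cast at h1
  refine ⟨y, h1, fun n => ?_⟩
  have hsV : V s.order s := V_order s
  have h1s : (1 + s) ≠ 0 := by
    intro h
    have h3 : (1 + s).coeff 0 = 1 := by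
      rw [HahnSeries.coeff_add, HahnSeries.coeff_one, if_pos rfl, hsV 0 he, add_zero]
    rw [h] at h3
    exact zero_ne_one h3
  have hV0 : V 0 (1 + s) := V_add V_one (hsV.mono he.le)
  have hsp : V (s.order * p ^ N) ((1 + s) ^ p ^ N - 1) := by
    rw [one_add_pow_char, add_sub_cancel_left]
    have h3 := V_order (s ^ p ^ N)
    rwa [HahnSeries.order_pow, nsmul_eq_mul, mul_comm, Nat.cast_pow] at h3
  have hpos : 1 ≤ s.order * (p : ℤ) ^ N := by
    have : 0 < s.order * (p : ℤ) ^ N := mul_pos he (by exact_mod_cast hPpos)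
    omega
  set P : ℤ := (p : ℤ) ^ N with hP
  have hPp : 0 < P := by rw [hP]; exact_mod_cast hPpos
  have hr0 : 0 ≤ n % P := Int.emod_nonneg _ hPp.ne'
  have hr1 : n % P < P := Int.emod_lt_of_pos _ hPp
  obtain ⟨r, hr⟩ : ∃ r : ℕ, (r : ℤ) = n % P := ⟨(n % P).toNat, Int.toNat_of_nonneg hr0⟩
  have hrP : r < p ^ N := by
    have : (r : ℤ) < ((p ^ N : ℕ) : ℤ) := by rw [hr]; push_cast; exact hr1
    exact_mod_cast this
  have hn : n = r + P * (n / P) := by rw [hr]; exact (Int.emod_add_mul_ediv n P).symm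
  have h4 : (1 + s) ^ n = (1 + s) ^ r + (1 + s) ^ r * (((1 + s) ^ p ^ N) ^ (n / P) - 1) := by
    conv_lhs => rw [hn]
    rw [zpow_add₀ h1s, zpow_natCast, zpow_mul, hP]
    have h5 : (1 + s) ^ ((p : ℤ) ^ N) = (1 + s) ^ (p ^ N) := by
      rw [← Nat.cast_pow, zpow_natCast]
    rw [h5]
    ring
  have h6 : ((1 + s) ^ r * (((1 + s) ^ p ^ N) ^ (n / P) - 1) * y).coeff 0 = 0 := by
    refine coeff_zero_of_V (k := s.order * P) ?_ h1 (by omega)
    have h7 := V_mul (V_pow hV0 r) (V_one_zpow hpos hsp (n / P))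
    rwa [zero_add] at h7
  rw [h4, add_mul, HahnSeries.coeff_add, h6, add_zero, h2 r hrP]
  conv_rhs => rw [hn]
  exact (hF _ _).symm

end Pool.Agent.Run7.h755.MG
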