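import Pool.Agent.Run7.h755.MG.Form2
import Pool.Agent.Run7.h755.MG.Main

/-! # No tame expansion defines a set between an additive group `MM s` and its closure (helper755) -/

set_option autoImplicit false

namespace Pool.Agent.Run7.h755.MG

open Function
open Pool.Agent.Y924.EL Pool.Agent.Y924.UF
open Pool.Agent.Results.MP_db9079_lc.UniformFiniteness

variable {p : ℕ} [hp : Fact p.Prime]

theorem sub_p (x y : LaurentSeries (ZMod p)) : (x - y) ^ p = x ^ p - y ^ p := by
  have := Pool.Agent.Y15.UF.inst_char (p := p)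
  exact sub_pow_char _ _

theorem sub_pp (x y : LaurentSeries (ZMod p)) (n : ℕ) :
    (x - y) ^ p ^ n = x ^ p ^ n - y ^ p ^ n := by
  have := Pool.Agent.Y15.UF.inst_char (p := p)
  exact sub_pow_char_pow x y n

theorem MM_up (s : LaurentSeries (ZMod p)) {a : LaurentSeries (ZMod p)}
    (ha : a ∈ MM (s ^ p - s)) : ∃ g ∈ MM s, a = g ^ p - g := by
  induction ha using AddSubgroup.closure_induction with
  | mem x hx =>
    obtain ⟨i, rfl⟩ := hx
    refine ⟨_, gen_mem s i, ?_⟩
    simp only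
    rw [sub_pp, ← pow_mul, ← pow_mul, mul_comm]
  | zero => exact ⟨0, (MM s).zero_mem, by rw [zero_pow hp.out.ne_zero, sub_zero]⟩
  | add x y _ _ h1 h2 =>
    obtain ⟨g, hg, rfl⟩ := h1
    obtain ⟨g', hg', rfl⟩ := h2
    refine ⟨g + g', (MM s).add_mem hg hg', ?_⟩
    rw [pow_p_add]
    ring
  | neg x _ h1 =>
    obtain ⟨g, hg, rfl⟩ := h1
    refine ⟨-g, (MM s).neg_mem hg, ?_⟩
    have e1 := sub_p 0 g
    rw [zero_sub, zero_pow hp.out.ne_zero, zero_sub] at e1
    rw [e1]
    ring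

theorem MM_down (s : LaurentSeries (ZMod p)) {g : LaurentSeries (ZMod p)}
    (hg : g ∈ MM s) : g ^ p - g ∈ MM (s ^ p - s) := by
  induction hg using AddSubgroup.closure_induction with
  | mem x hx =>
    obtain ⟨i, rfl⟩ := hx
    have := gen_mem (s ^ p - s) i
    rw [sub_pp, ← pow_mul, mul_comm, pow_mul] at this
    exact this
  | zero =>
    rw [zero_pow hp.out.ne_zero, sub_zero]
    exact (MM _).zero_mem
  | add x y _ _ h1 h2 =>
    have := (MM _).add_mem h1 h2
    rw [pow_p_add]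
    convert this using 1
    ring
  | neg x _ h1 =>
    have := (MM _).neg_mem h1
    have e1 := sub_p 0 x
    rw [zero_sub, zero_pow hp.out.ne_zero, zero_sub] at e1
    rw [e1]
    convert this using 1
    ring

/-- the case of an integral element -/
theorem not_tame_int (Q : Set (LaurentSeries (ZMod p))) (ψ : Fm) (w : ℕ → LaurentSeries (ZMod p))
    (s0 : LaurentSeries (ZMod p)) (hne : s0 ^ p ≠ s0) (hV : V 0 s0)
    (h1 : ∀ a ∈ MM s0, a ∈ Dfn p Q ψ w)
    (h2 : ∀ x ∈ Dfn p Q ψ w, ∀ k : ℤ, ∃ a ∈ MM s0, V k (x - a)) : ¬ Tame p Q := by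
  intro hT
  obtain ⟨s, hsd⟩ : ∃ s, s = s0 ^ p - s0 := ⟨_, rfl⟩
  have hs : s ≠ 0 := by
    rw [hsd]
    exact sub_ne_zero.2 hne
  have he : 0 < s.order := by
    have e1 : V 1 (s0 - HahnSeries.C (s0.coeff 0)) := by
      intro i hi
      rw [HahnSeries.coeff_sub, HahnSeries.C_apply]
      rcases (show i < 0 ∨ i = 0 by omega) with h | rfl
      · rw [hV i h, HahnSeries.coeff_single_of_ne h.ne, sub_zero]
      · rw [HahnSeries.coeff_single_same, sub_self]
    have e2 : s = (s0 - HahnSeries.C (s0.coeff 0)) ^ p - (s0 - HahnSeries.C (s0.coeff 0)) := by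
      rw [sub_p, ← map_pow, ZMod.pow_card, hsd]
      ring
    have e3 : V 1 s := by
      rw [e2]
      exact V_sub (V_powk (by norm_num) e1 hp.out.pos) e1
    by_contra hc
    exact coeff_order_ne hs (e3 _ (by omega))
  have a1 : ∀ a ∈ MM s, a ∈ PP Q ψ w := by
    intro a ha
    rw [hsd] at ha
    obtain ⟨g, hg, rfl⟩ := MM_up s0 ha
    exact ⟨g, h1 g hg, rfl⟩
  have a2 : ∀ x ∈ PP Q ψ w, ∀ k : ℤ, ∃ a ∈ MM s, V k (x - a) := by
    rintro x ⟨g, hg, rfl⟩ k
    obtain ⟨d, hd, hgd⟩ := h2 g hg (max k 0)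
    refine ⟨d ^ p - d, hsd ▸ MM_down s0 hd, ?_⟩
    have hVd : V 0 d := MM_V hV hd
    have hVg : V 0 g := by
      have e3 : g = (g - d) + d := by ring
      rw [e3]
      exact V_add (hgd.mono (le_max_right _ _)) hVd
    have e4 := V_sub (V_pow_sub hgd hVg hVd p) hgd
    have e5 : g ^ p - g - (d ^ p - d) = g ^ p - d ^ p - (g - d) := by ring
    rw [e5]
    exact e4.mono (le_max_left _ _)
  obtain ⟨v, hv⟩ : ∃ v : ℕ → LaurentSeries (ZMod p), v = fun i =>
      if i = 64 then HahnSeries.single (1 : ℤ) (1 : ZMod p) else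
        if i = 65 then s else w (i - 100) := ⟨_, rfl⟩
  have hG : Gd s w v := by
    refine ⟨by rw [hv]; rfl, by rw [hv]; rfl, fun i hi => ?_⟩
    rw [hv]
    simp only
    rw [if_neg (by omega), if_neg (by omega), Nat.add_sub_cancel]
  have hDf : Dfn p Q (AF p ψ) v = AA s (PP Q ψ w) := by
    ext x
    change Sat Q (AF p ψ) (update v 0 x) ↔ _
    rw [sat_AF Q ψ (hG.upd (k := 0) (by norm_num) (by norm_num) (by norm_num) x), update_self]
  have hfin := hT.2 (AF p ψ) v (by
    rw [hDf]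
    exact BB_scattered hs he fun x hx => AA_sub hs he a1 a2 hx)
  rw [hDf] at hfin
  refine Set.infinite_of_injective_forall_mem (f := fun i : ℕ => s ^ p ^ i) ?_
    (fun i => gen_AA hs he a1 a2 i) hfin
  intro i j h
  have h3 := congrArg HahnSeries.order (show s ^ p ^ i = s ^ p ^ j from h)
  rw [HahnSeries.order_pow, HahnSeries.order_pow, nsmul_eq_mul, nsmul_eq_mul] at h3
  have h4 : ((p ^ i : ℕ) : ℤ) = ((p ^ j : ℕ) : ℤ) := mul_right_cancel₀ he.ne' h3
  exact Nat.pow_right_injective hp.out.two_le (by exact_mod_cast h4)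

theorem MM_repr (s : LaurentSeries (ZMod p)) {a : LaurentSeries (ZMod p)} (ha : a ∈ MM s) :
    ∃ (c : ℕ → ZMod p) (n : ℕ), ∀ m, n ≤ m →
      a = ∑ j ∈ Finset.range m, HahnSeries.C (c j) * s ^ p ^ j := by
  induction ha using AddSubgroup.closure_induction with
  | mem x hx =>
    obtain ⟨i, rfl⟩ := hx
    refine ⟨fun j => if j = i then 1 else 0, i + 1, fun m hm => ?_⟩
    rw [Finset.sum_eq_single i]
    · simp only [if_true, map_one, one_mul]
    · intro j _ hj
      simp only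
      rw [if_neg hj, map_zero, zero_mul]
    · intro h
      exact absurd (Finset.mem_range.2 (by omega)) h
  | zero => exact ⟨fun _ => 0, 0, fun m _ => by simp⟩
  | add x y _ _ h1 h2 =>
    obtain ⟨c, n, h3⟩ := h1
    obtain ⟨c', n', h3'⟩ := h2
    refine ⟨fun j => c j + c' j, n + n', fun m hm => ?_⟩
    conv_lhs => rw [h3 m (by omega), h3' m (by omega)]
    rw [← Finset.sum_add_distrib]
    refine Finset.sum_congr rfl fun j _ => ?_
    rw [map_add, add_mul]
  | neg x _ h1 =>
    obtain ⟨c, n, h3⟩ := h1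
    refine ⟨fun j => -c j, n, fun m hm => ?_⟩
    conv_lhs => rw [h3 m (by omega)]
    rw [← Finset.sum_neg_distrib]
    refine Finset.sum_congr rfl fun j _ => ?_
    rw [map_neg, neg_mul]

theorem MM_neg {s : LaurentSeries (ZMod p)} (he : s.order < 0) {a : LaurentSeries (ZMod p)}
    (ha : a ∈ MM s) (hV : V 0 a) : a = 0 := by
  have hs : s ≠ 0 := by
    rintro rfl
    rw [HahnSeries.order_zero] at he
    exact lt_irrefl _ he
  obtain ⟨c, n, hc⟩ := MM_repr s ha
  have key : ∀ n : ℕ, V 0 (∑ j ∈ Finset.range n, HahnSeries.C (c j) * s ^ p ^ j) →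
      ∑ j ∈ Finset.range n, HahnSeries.C (c j) * s ^ p ^ j = 0 := by
    intro n
    induction n with
    | zero => intro _; simp
    | succ n ih =>
      intro h
      have hC : ∀ (c : ZMod p) (x : LaurentSeries (ZMod p)) (k : ℤ),
          (HahnSeries.C c * x).coeff k = c * x.coeff k := by
        intro c x k
        rw [HahnSeries.C_mul_eq_smul, HahnSeries.coeff_smul, smul_eq_mul]
      have hneg : s.order * (p : ℤ) ^ n < 0 :=
        mul_neg_of_neg_of_pos he (pow_pos (by exact_mod_cast hp.out.pos) n)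
      have h1 := h (s.order * (p : ℤ) ^ n) hneg
      rw [Finset.sum_range_succ, HahnSeries.coeff_add, HahnSeries.coeff_sum,
        Finset.sum_eq_zero, zero_add, hC] at h1
      · have h2 : c n = 0 := (mul_eq_zero.1 h1).resolve_right (coeff_spow hs n)
        rw [Finset.sum_range_succ, h2, map_zero, zero_mul, add_zero] at h ⊢
        exact ih h
      · intro j hj
        have hjn := Finset.mem_range.1 hj
        rw [hC, V_spow j _ ?_, mul_zero]
        have e1 : p ^ j < p ^ n := Nat.pow_lt_pow_right hp.out.one_lt hjn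
        have e2 : (p : ℤ) ^ j < (p : ℤ) ^ n := by exact_mod_cast e1
        nlinarith
  rw [hc n le_rfl] at hV ⊢
  exact key n hV

/-- the case of an element which is not integral -/
theorem not_tame_nonint (Q : Set (LaurentSeries (ZMod p))) (ψ : Fm)
    (w : ℕ → LaurentSeries (ZMod p)) (s : LaurentSeries (ZMod p)) (he : s.order < 0)
    (h1 : ∀ a ∈ MM s, a ∈ Dfn p Q ψ w)
    (h2 : ∀ x ∈ Dfn p Q ψ w, ∀ k : ℤ, ∃ a ∈ MM s, V k (x - a)) : ¬ Tame p Q := by
  intro hT
  have hcl : ∀ x ∈ Dfn p Q ψ w, x ∈ MM s := by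
    intro x hx
    obtain ⟨a, ha, h3⟩ := h2 x hx 0
    have : x = a := by
      ext k
      obtain ⟨b, hb, h4⟩ := h2 x hx (max 0 (k + 1))
      have e1 : V 0 (a - b) := by
        have e2 : a - b = (x - b) - (x - a) := by ring
        rw [e2]
        exact V_sub (h4.mono (le_max_left _ _)) h3
      have e3 : a = b := sub_eq_zero.1 (MM_neg he ((MM s).sub_mem ha hb) e1)
      rw [← e3] at h4
      have e4 := h4 k (lt_of_lt_of_le (by omega) (le_max_right _ _))
      rw [HahnSeries.coeff_sub, sub_eq_zero] at e4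
      exact e4
    rw [this]
    exact ha
  have hsc : Scattered p (Dfn p Q ψ w) := by
    rintro T hTS ⟨x, hx⟩
    refine ⟨x, hx, HahnSeries.single (0 : ℤ) (1 : ZMod p), ?_, ?_⟩
    · intro h
      exact one_ne_zero (HahnSeries.single_eq_zero_iff.1 h)
    · rintro y hy ⟨z, hz, hzy⟩
      have hag := (Pool.Agent.Y697.UF.ball_single 0 x y).1 ⟨z, hz, by rw [← hzy]; ring⟩
      refine sub_eq_zero.1 (MM_neg he ((MM s).sub_mem (hcl y (hTS hy)) (hcl x (hTS hx))) ?_)
      intro i hi
      rw [HahnSeries.coeff_sub, hag i hi, sub_self]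
  refine Set.infinite_of_injective_forall_mem (f := fun i : ℕ => s ^ p ^ i) ?_
    (fun i => h1 _ (gen_mem s i)) (hT.2 ψ w hsc)
  intro i j h
  have h3 := congrArg HahnSeries.order (show s ^ p ^ i = s ^ p ^ j from h)
  rw [HahnSeries.order_pow, HahnSeries.order_pow, nsmul_eq_mul, nsmul_eq_mul] at h3
  have h4 : ((p ^ i : ℕ) : ℤ) = ((p ^ j : ℕ) : ℤ) := mul_right_cancel₀ he.ne h3
  exact Nat.pow_right_injective hp.out.two_le (by exact_mod_cast h4)

theorem not_tame_add (Q : Set (LaurentSeries (ZMod p))) (ψ : Fm) (w : ℕ → LaurentSeries (ZMod p))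
    (s : LaurentSeries (ZMod p)) (hne : s ^ p ≠ s)
    (h1 : ∀ a ∈ MM s, a ∈ Dfn p Q ψ w)
    (h2 : ∀ x ∈ Dfn p Q ψ w, ∀ k : ℤ, ∃ a ∈ MM s, V k (x - a)) : ¬ Tame p Q := by
  by_cases ho : s.order < 0
  · exact not_tame_nonint Q ψ w s ho h1 h2
  · exact not_tame_int Q ψ w s hne ((V_order s).mono (not_lt.1 ho)) h1 h2

end Pool.Agent.Run7.h755.MG
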