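import Pool.Agent.Run7.h755.MG.Ind

/-! # The set of the powers `u ^ (p ^ i)` and `1` (helper755) -/

set_option autoImplicit false

namespace Pool.Agent.Run7.h755.MG

open Function
open Pool.Agent.Results.MP_db9079_lc.UniformFiniteness

variable {p : ℕ} [hp : Fact p.Prime]

/-- the set defined by the formula -/
def DD (u : LaurentSeries (ZMod p)) (P : Set (LaurentSeries (ZMod p))) :
    Set (LaurentSeries (ZMod p)) :=
  {x | x ∈ P ∧ ∀ y : LaurentSeries (ZMod p), (u * y).coeff 0 = 0 →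
    (∀ h ∈ P, (h * y).coeff 0 = 0 → (h ^ p * y).coeff 0 = 0) → (x * y).coeff 0 = 0}

/-- the powers `u ^ (p ^ i)` and `1` -/
def FP (u : LaurentSeries (ZMod p)) : Set (LaurentSeries (ZMod p)) :=
  {x | x = 1 ∨ ∃ i : ℕ, x = u ^ p ^ i}

section

variable {s : LaurentSeries (ZMod p)} (hs : s ≠ 0) (he : 0 < s.order)

include he

theorem one_add_ne : (1 + s) ≠ 0 := by
  intro h
  have h3 : (1 + s).coeff 0 = 1 := by
    rw [HahnSeries.coeff_add, HahnSeries.coeff_one, if_pos rfl, V_order s 0 he, add_zero]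
  rw [h] at h3
  exact zero_ne_one h3

theorem one_sub_V : V 1 (1 + s - 1) := by
  rw [add_sub_cancel_left]
  exact (V_order s).mono (by omega)

theorem V_base : V 0 (1 + s) := V_of_one (one_sub_V he)

theorem V_zp (n : ℤ) : V 0 ((1 + s) ^ n) :=
  V_of_one ((V_one_zpow le_rfl (one_sub_V he) n))

theorem pow_pos_ge (N : ℕ) : 1 ≤ s.order * (p : ℤ) ^ N := by
  have : 0 < s.order * (p : ℤ) ^ N := mul_pos he (pow_pos (by exact_mod_cast hp.out.pos) N)
  omega

omit he in
theorem V_spow (N : ℕ) : V (s.order * (p : ℤ) ^ N) (s ^ p ^ N) := by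
  have h3 := V_order (s ^ p ^ N)
  rwa [HahnSeries.order_pow, nsmul_eq_mul, mul_comm, Nat.cast_pow] at h3

omit he in
include hs in
theorem coeff_spow (N : ℕ) : (s ^ p ^ N).coeff (s.order * (p : ℤ) ^ N) ≠ 0 := by
  have h3 := coeff_order_ne (pow_ne_zero (p ^ N) hs)
  rwa [HahnSeries.order_pow, nsmul_eq_mul, mul_comm, Nat.cast_pow] at h3

theorem V_period (N : ℕ) (a k : ℤ) :
    V (s.order * (p : ℤ) ^ N) ((1 + s) ^ (a + (p : ℤ) ^ N * k) - (1 + s) ^ a) := by
  have h1 : (1 + s) ^ (a + (p : ℤ) ^ N * k) - (1 + s) ^ a =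
      (1 + s) ^ a * (((1 + s) ^ p ^ N) ^ k - 1) := by
    rw [zpow_add₀ (one_add_ne he), zpow_mul]
    have h5 : (1 + s) ^ ((p : ℤ) ^ N) = (1 + s) ^ (p ^ N) := by
      rw [← Nat.cast_pow, zpow_natCast]
    rw [h5]
    ring
  rw [h1]
  have h2 : V (s.order * (p : ℤ) ^ N) ((1 + s) ^ p ^ N - 1) := by
    rw [one_add_pow_char, add_sub_cancel_left]
    exact V_spow N
  have h3 := V_mul (V_zp he a) (V_one_zpow (pow_pos_ge he N) h2 k)
  rwa [zero_add] at h3

variable {P : Set (LaurentSeries (ZMod p))}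
  (h2 : ∀ x ∈ P, ∀ k : ℤ, ∃ n : ℤ, V k (x - (1 + s) ^ n))

include hs h2

theorem step (N : ℕ) (hN : 1 ≤ N) {x : LaurentSeries (ZMod p)} (hx : x ∈ DD (1 + s) P) {n : ℤ}
    (hn : V (s.order * (p : ℤ) ^ N) (x - (1 + s) ^ n)) :
    (p : ℤ) ^ N ∣ n ∨ ∃ i < N, (p : ℤ) ^ N ∣ n - (p : ℤ) ^ i := by
  classical
  by_contra hcon
  set R : ℤ → Prop := fun m => (p : ℤ) ^ N ∣ m ∨ ∃ i < N, (p : ℤ) ^ N ∣ m - (p : ℤ) ^ i with hR
  have hper : ∀ m k : ℤ, R (m + (p : ℤ) ^ N * k) ↔ R m := by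
    intro m k
    have e1 : ((p : ℤ) ^ N ∣ m + (p : ℤ) ^ N * k) ↔ (p : ℤ) ^ N ∣ m :=
      dvd_add_left (dvd_mul_right _ _)
    have e2 : ∀ i : ℕ, ((p : ℤ) ^ N ∣ m + (p : ℤ) ^ N * k - (p : ℤ) ^ i) ↔
        (p : ℤ) ^ N ∣ m - (p : ℤ) ^ i := by
      intro i
      have : m + (p : ℤ) ^ N * k - (p : ℤ) ^ i = (m - (p : ℤ) ^ i) + (p : ℤ) ^ N * k := by ring
      rw [this]
      exact dvd_add_left (dvd_mul_right _ _)
    simp only [hR, e1, e2]
  obtain ⟨y, hy, hf⟩ := dualP hs he N (fun m => if R m then 0 else 1) (fun m k => by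
    simp only [hper m k])
  have key : ∀ (h : LaurentSeries (ZMod p)) (m : ℤ),
      V (s.order * (p : ℤ) ^ N) (h - (1 + s) ^ m) → (h * y).coeff 0 = if R m then 0 else 1 := by
    intro h m hm
    have e1 : h * y = (1 + s) ^ m * y + (h - (1 + s) ^ m) * y := by ring
    rw [e1, HahnSeries.coeff_add, hf m, coeff_zero_of_V hm hy (by omega), add_zero]
  have h1 : (x * y).coeff 0 = 0 := by
    refine hx.2 y ?_ fun h hh h0 => ?_
    · have e2 := hf 1
      rw [zpow_one] at e2
      rw [e2, if_pos]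
      exact Or.inr ⟨0, hN, by simp⟩
    · obtain ⟨m, hm⟩ := h2 h hh (s.order * (p : ℤ) ^ N)
      rw [key h m hm] at h0
      have hRm : R m := by
        by_contra hc
        rw [if_neg hc] at h0
        exact one_ne_zero h0
      have hV0 : V 0 h := by
        have e3 : h = (h - (1 + s) ^ m) + (1 + s) ^ m := by ring
        rw [e3]
        exact V_add (hm.mono (by have := pow_pos_ge (p := p) he N; omega)) (V_zp he m)
      have e4 := V_pow_sub hm hV0 (V_zp he m) p
      rw [← zpow_natCast ((1 + s) ^ m), ← zpow_mul] at e4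
      rw [key _ _ e4, if_pos]
      rcases hRm with h5 | ⟨i, hi, h5⟩
      · exact Or.inl (h5.mul_right _)
      · have h6 : (p : ℤ) ^ N ∣ m * p - (p : ℤ) ^ (i + 1) := by
          have : m * p - (p : ℤ) ^ (i + 1) = (m - (p : ℤ) ^ i) * p := by ring
          rw [this]
          exact h5.mul_right _
        rcases Nat.lt_or_ge (i + 1) N with h7 | h7
        · exact Or.inr ⟨i + 1, h7, h6⟩
        · have h8 : i + 1 = N := by omega
          rw [h8] at h6
          exact Or.inl ((dvd_sub_left (dvd_refl _)).1 h6)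
  rw [key x n hn, if_neg hcon] at h1
  exact one_ne_zero h1

theorem DD_sub {x : LaurentSeries (ZMod p)} (hx : x ∈ DD (1 + s) P) : x ∈ FP (1 + s) := by
  by_contra hne
  have hne1 : x ≠ 1 := fun h => hne (Or.inl h)
  have hne2 : ∀ i : ℕ, x ≠ (1 + s) ^ p ^ i := fun i h => hne (Or.inr ⟨i, h⟩)
  have hx1 : x - 1 ≠ 0 := sub_ne_zero.2 hne1
  obtain ⟨w, hw⟩ : ∃ w, w = (x - 1).order := ⟨_, rfl⟩
  have hwV : V w (x - 1) := hw ▸ V_order _
  have hwc : (x - 1).coeff w ≠ 0 := hw ▸ coeff_order_ne hx1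
  have A : ∀ N : ℕ, 1 ≤ N → w < s.order * (p : ℤ) ^ N → ∃ i : ℕ, s.order * (p : ℤ) ^ i = w ∧
      V (s.order * (p : ℤ) ^ N) (x - (1 + s) ^ p ^ i) := by
    intro N hN hwN
    obtain ⟨n, hn⟩ := h2 x hx.1 (s.order * (p : ℤ) ^ N)
    rcases step hs he h2 N hN hx hn with ⟨k, hk⟩ | ⟨i, hi, k, hk⟩
    · exfalso
      have e1 := V_period he N 0 k
      rw [zero_add, zpow_zero, ← hk] at e1
      have e2 : x - 1 = (x - (1 + s) ^ n) + ((1 + s) ^ n - 1) := by ring
      have e3 : V (s.order * (p : ℤ) ^ N) (x - 1) := e2 ▸ V_add hn e1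
      exact hwc (e3 w hwN)
    · have e1 := V_period he N ((p : ℤ) ^ i) k
      have e0 : (p : ℤ) ^ i + (p : ℤ) ^ N * k = n := by rw [← hk]; ring
      have e5 : (1 + s) ^ ((p : ℤ) ^ i) = (1 + s) ^ (p ^ i) := by
        rw [← Nat.cast_pow, zpow_natCast]
      rw [e0, e5] at e1
      have e2 : x - (1 + s) ^ p ^ i = (x - (1 + s) ^ n) + ((1 + s) ^ n - (1 + s) ^ p ^ i) := by
        ring
      have e3 : V (s.order * (p : ℤ) ^ N) (x - (1 + s) ^ p ^ i) := e2 ▸ V_add hn e1
      refine ⟨i, ?_, e3⟩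
      have e4 : ∀ k < s.order * (p : ℤ) ^ N, (s ^ p ^ i).coeff k = (x - 1).coeff k := by
        intro k hk
        have e6 := e3 k hk
        rw [one_add_pow_char] at e6
        have e7 : x - (1 + s ^ p ^ i) = (x - 1) - s ^ p ^ i := by ring
        rw [e7, HahnSeries.coeff_sub, sub_eq_zero] at e6
        exact e6.symm
      apply le_antisymm
      · by_contra hc
        apply hwc
        rw [← e4 w hwN]
        exact V_spow i w (not_le.1 hc)
      · by_contra hc
        have hc' := not_le.1 hc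
        apply coeff_spow hs i
        rw [e4 _ (by omega)]
        exact hwV _ hc'
  have hbig : ∀ N : ℕ, (N : ℤ) < s.order * (p : ℤ) ^ N := by
    intro N
    have e1 : N < p ^ N := Nat.lt_pow_self hp.out.one_lt
    have e2 : (N : ℤ) < (p : ℤ) ^ N := by exact_mod_cast e1
    nlinarith
  obtain ⟨i, hi, -⟩ := A (w.toNat + 1) (by omega) (by
    have := hbig (w.toNat + 1)
    push_cast at this
    have h3 := Int.self_le_toNat w
    push_cast
    omega)
  have hd : x - (1 + s) ^ p ^ i ≠ 0 := sub_ne_zero.2 (hne2 i)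
  set k := (x - (1 + s) ^ p ^ i).order with hk
  have hkc : (x - (1 + s) ^ p ^ i).coeff k ≠ 0 := coeff_order_ne hd
  have hb := hbig (w.toNat + k.toNat + 1)
  have h3 := Int.self_le_toNat w
  have h4 := Int.self_le_toNat k
  push_cast at hb
  obtain ⟨j, hj, hV⟩ := A (w.toNat + k.toNat + 1) (by omega) (by omega)
  have hij : i = j := by
    have e1 : s.order * (p : ℤ) ^ i = s.order * (p : ℤ) ^ j := by rw [hi, hj]
    have e2 : (p : ℤ) ^ i = (p : ℤ) ^ j := mul_left_cancel₀ he.ne' e1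
    have e3 : p ^ i = p ^ j := by exact_mod_cast e2
    exact Nat.pow_right_injective hp.out.two_le e3
  subst hij
  exact hkc (hV k (by omega))

end

theorem sub_DD {s : LaurentSeries (ZMod p)} (he : 0 < s.order)
    {P : Set (LaurentSeries (ZMod p))} (h1 : ∀ i : ℕ, (1 + s) ^ p ^ i ∈ P) (h0 : (1 : LaurentSeries (ZMod p)) ∈ P)
    {x : LaurentSeries (ZMod p)} (hx : x ∈ FP (1 + s)) : x ∈ DD (1 + s) P := by
  have key : ∀ y : LaurentSeries (ZMod p), ((1 + s) * y).coeff 0 = 0 →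
      (∀ h ∈ P, (h * y).coeff 0 = 0 → (h ^ p * y).coeff 0 = 0) →
      ∀ i : ℕ, ((1 + s) ^ p ^ i * y).coeff 0 = 0 := by
    intro y hy hP i
    induction i with
    | zero => rwa [pow_zero, pow_one]
    | succ i ih =>
      rw [pow_succ, pow_mul]
      exact hP _ (h1 i) ih
  rcases hx with rfl | ⟨i, rfl⟩
  · refine ⟨h0, fun y hy hP => ?_⟩
    obtain ⟨b, hb⟩ := exists_V y
    have e1 : (-b).toNat + 1 < p ^ ((-b).toNat + 1) := Nat.lt_pow_self hp.out.one_lt
    have e2 : (((-b).toNat + 1 : ℕ) : ℤ) < (p : ℤ) ^ ((-b).toNat + 1) := by exact_mod_cast e1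
    have e3 := Int.self_le_toNat (-b)
    have e4 : 0 < s.order * (p : ℤ) ^ ((-b).toNat + 1) + b := by
      push_cast at e2
      nlinarith
    have e5 := key y hy hP ((-b).toNat + 1)
    rw [one_add_pow_char, add_mul, HahnSeries.coeff_add,
      coeff_zero_of_V (V_spow _) hb e4, add_zero] at e5
    exact e5
  · exact ⟨h1 i, fun y hy hP => key y hy hP i⟩

theorem FP_scattered {s : LaurentSeries (ZMod p)} (hs : s ≠ 0) (he : 0 < s.order) :
    Scattered p (FP (1 + s)) := by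
  intro T hT hne
  have hmono : ∀ i j : ℕ, i < j → s.order * (p : ℤ) ^ i < s.order * (p : ℤ) ^ j := by
    intro i j hij
    have e1 : p ^ i < p ^ j := Nat.pow_lt_pow_right hp.out.one_lt hij
    have e2 : (p : ℤ) ^ i < (p : ℤ) ^ j := by exact_mod_cast e1
    exact mul_lt_mul_of_pos_left e2 he
  by_cases hi : ∃ i : ℕ, (1 + s) ^ p ^ i ∈ T
  · obtain ⟨i, hi⟩ := hi
    refine ⟨_, hi, HahnSeries.single (s.order * (p : ℤ) ^ i + 1) (1 : ZMod p), ?_, ?_⟩
    · intro h
      exact one_ne_zero (HahnSeries.single_eq_zero_iff.1 h)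
    · rintro y hy ⟨z, hz, hzy⟩
      have hag := (Pool.Agent.Y697.UF.ball_single (s.order * (p : ℤ) ^ i + 1)
        ((1 + s) ^ p ^ i) y).1 ⟨z, hz, by rw [← hzy]; ring⟩
      rcases hT hy with rfl | ⟨j, rfl⟩
      · exfalso
        have h3 := hag (s.order * (p : ℤ) ^ i) (by omega)
        rw [one_add_pow_char, HahnSeries.coeff_add] at h3
        exact coeff_spow hs i (by simpa using h3)
      · rcases lt_trichotomy i j with h4 | rfl | h4
        · exfalso
          have h3 := hag (s.order * (p : ℤ) ^ i) (by omega)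
          rw [one_add_pow_char, one_add_pow_char, HahnSeries.coeff_add, HahnSeries.coeff_add,
            V_spow j _ (hmono i j h4)] at h3
          exact coeff_spow hs i (by simpa using h3)
        · rfl
        · exfalso
          have h5 := hmono j i h4
          have h3 := hag (s.order * (p : ℤ) ^ j) (by omega)
          rw [one_add_pow_char, one_add_pow_char, HahnSeries.coeff_add, HahnSeries.coeff_add,
            V_spow i _ h5] at h3
          exact coeff_spow hs j (by simpa using h3.symm)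
  · obtain ⟨x, hx⟩ := hne
    have h1 : ∀ y ∈ T, y = 1 := by
      intro y hy
      rcases hT hy with h | ⟨i, h⟩
      · exact h
      · exact absurd ⟨i, h ▸ hy⟩ hi
    refine ⟨x, hx, 1, one_ne_zero, fun y hy _ => ?_⟩
    rw [h1 y hy, h1 x hx]

theorem FP_infinite {s : LaurentSeries (ZMod p)} (hs : s ≠ 0) (he : 0 < s.order) :
    (FP (1 + s)).Infinite := by
  refine Set.infinite_of_injective_forall_mem (f := fun i : ℕ => (1 + s) ^ p ^ i) ?_
    fun i => Or.inr ⟨i, rfl⟩
  intro i j h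
  have h1 : (1 + s) ^ p ^ i = (1 + s) ^ p ^ j := h
  rw [one_add_pow_char, one_add_pow_char] at h1
  have h2 : s ^ p ^ i = s ^ p ^ j := add_left_cancel h1
  have h3 := congrArg HahnSeries.order h2
  rw [HahnSeries.order_pow, HahnSeries.order_pow, nsmul_eq_mul, nsmul_eq_mul] at h3
  have h4 : ((p ^ i : ℕ) : ℤ) = ((p ^ j : ℕ) : ℤ) := mul_right_cancel₀ he.ne' h3
  exact Nat.pow_right_injective hp.out.two_le (by exact_mod_cast h4)

end Pool.Agent.Run7.h755.MG
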